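import Mathlib

open Cardinal Ordinal Filter Set Order

universe u

namespace Pool.Agent.H85.ASC

/-- `δ`-strong compactness of `κ`: every `κ`-complete (proper) filter on a set extends to a
`δ`-complete ultrafilter. -/
def SC (δ κ : Cardinal.{u}) : Prop :=
  ∀ (I : Type u) (F : Filter I), F.NeBot → CardinalInterFilter F κ →
    ∃ U : Ultrafilter I, (U : Filter I) ≤ F ∧ CardinalInterFilter (U : Filter I) δ

/-- `κ` is almost strongly compact. -/
def AlmostSC (κ : Cardinal.{u}) : Prop :=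
  ℵ₁ < κ ∧ ∀ δ : Cardinal.{u}, ℵ₁ ≤ δ → δ < κ → SC δ κ

/-- `U` is a `δ`-complete ultrafilter. -/
abbrev Cp {I : Type u} (U : Ultrafilter I) (δ : Cardinal.{u}) : Prop :=
  CardinalInterFilter (U : Filter I) δ

/-- `U` is `ν`-decomposable. -/
def Dec {I : Type u} (U : Ultrafilter I) (ν : Cardinal.{u}) : Prop :=
  ∃ (J : Type u) (f : I → J), #J = ν ∧ ∀ A : Set J, #A < ν → f ⁻¹' A ∉ U

/-- `λ` carries a `δ`-complete uniform ultrafilter (`λ` regular): every final segment is in it. -/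
def Uni (δ l : Cardinal.{u}) : Prop :=
  ∃ U : Ultrafilter l.ord.ToType, Cp U δ ∧ ∀ a, Ioi a ∈ U

variable {I J : Type u} {W : Ultrafilter I} {δ ν κ : Cardinal.{u}}

theorem Cp.mono {δ' : Cardinal.{u}} (h : Cp W δ) (h' : δ' ≤ δ) : Cp W δ' :=
  @CardinalInterFilter.of_cardinalInterFilter_of_le _ _ (W : Filter I) h _ h'

theorem Cp.all {K : Type u} (h : Cp W δ) (hK : #K < δ) {p : I → K → Prop}
    (hp : ∀ k, ∀ᶠ x in (W : Filter I), p x k) : ∀ᶠ x in (W : Filter I), ∀ k, p x k :=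
  (@eventually_cardinal_forall _ _ _ _ h _ hK).2 hp

/-- a `δ`-complete ultrafilter concentrates on a fibre of a map with fewer than `δ` values. -/
theorem Cp.fibre {K : Type u} (h : Cp W δ) (hK : #K < δ) (f : I → K) :
    ∃ k, ∀ᶠ x in (W : Filter I), f x = k := by
  by_contra hc
  push Not at hc
  obtain ⟨x, hx⟩ := (h.all hK hc).exists
  exact hx (f x) rfl

theorem Cp.map (h : Cp W δ) (f : I → J) : Cp (W.map f) δ := by
  constructor
  intro S hS hm
  have : ∀ᶠ x in (W : Filter I), ∀ s : S, f x ∈ s.1 := h.all hS fun s => hm s.1 s.2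
  show f ⁻¹' (⋂₀ S) ∈ W
  filter_upwards [this] with x hx
  rw [mem_preimage, mem_sInter]
  exact fun s hs => hx ⟨s, hs⟩

theorem Cp.bind (h : Cp W δ) {Z : I → Ultrafilter J} (hZ : ∀ i, Cp (Z i) δ) :
    Cp (W.bind Z) δ := by
  constructor
  intro S hS hm
  have h1 : ∀ᶠ x in (W : Filter I), ∀ s : S, s.1 ∈ Z x := h.all hS fun s => hm s.1 s.2
  show ∀ᶠ x in (W : Filter I), ⋂₀ S ∈ Z x
  filter_upwards [h1] with x hx
  have := hZ x
  exact (cardinal_sInter_mem hS).2 fun s hs => hx ⟨s, hs⟩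

theorem Cp.pure (j : J) (δ : Cardinal.{u}) : Cp (Pure.pure j : Ultrafilter J) δ := by
  constructor
  intro S _ hm
  show j ∈ ⋂₀ S
  rw [mem_sInter]
  exact fun s hs => hm s hs

/-- every function has an essential range of minimal size -/
theorem exists_ess (W : Ultrafilter I) (f : I → J) :
    ∃ A : Set J, f ⁻¹' A ∈ W ∧ ∀ B : Set J, f ⁻¹' B ∈ W → #A ≤ #B := by
  have hne : {c : Cardinal.{u} | ∃ A : Set J, f ⁻¹' A ∈ W ∧ #A = c}.Nonempty :=
    ⟨_, univ, Filter.univ_mem, rfl⟩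
  obtain ⟨A, hA, hc⟩ := csInf_mem hne
  refine ⟨A, hA, fun B hB => ?_⟩
  rw [hc]
  exact csInf_le' ⟨B, hB, rfl⟩

theorem dec_of_ess (f : I → J) {A : Set J} (hA : f ⁻¹' A ∈ W)
    (hm : ∀ B : Set J, f ⁻¹' B ∈ W → #A ≤ #B) : Dec W #A := by
  classical
  obtain ⟨x0, hx0⟩ := W.nonempty_of_mem hA
  refine ⟨A, fun x => if h : f x ∈ A then ⟨f x, h⟩ else ⟨f x0, hx0⟩, rfl, ?_⟩
  intro B hB hBW
  have h1 : f ⁻¹' (Subtype.val '' B) ∈ W := by
    filter_upwards [hA, hBW] with x hx hxB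
    have hx' : f x ∈ A := hx
    simp only [mem_preimage, hx', dite_true] at hxB
    exact ⟨⟨f x, hx'⟩, hxB, rfl⟩
  exact absurd (hm _ h1) (not_le.2 (mk_image_le.trans_lt hB))

/-- if `W` is not `#A`-decomposable for the relevant sizes then functions into small sets are
essentially smaller. -/
theorem exists_small {a b : Cardinal.{u}} (hW : ∀ ν, a ≤ ν → ν ≤ b → ¬ Dec W ν)
    (f : I → J) (hJ : #J ≤ b) : ∃ A : Set J, f ⁻¹' A ∈ W ∧ #A < a := by
  obtain ⟨A, hA, hm⟩ := exists_ess W f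
  refine ⟨A, hA, ?_⟩
  by_contra h
  exact hW _ (not_lt.1 h) ((mk_set_le A).trans hJ) (dec_of_ess f hA hm)

theorem Dec.le (h : Dec W ν) (hW : Cp W δ) (h1 : 1 < ν) : δ ≤ ν := by
  obtain ⟨J, f, hJ, hf⟩ := h
  by_contra hlt
  obtain ⟨j, hj⟩ := hW.fibre (by rw [hJ]; exact not_le.1 hlt) f
  exact hf {j} (by simpa using h1) hj

theorem mk_Iic_lt {c : Cardinal.{u}} (h : ℵ₀ ≤ c) (a : c.ord.ToType) : #(Iic a) < c := by
  have := Cardinal.noMaxOrder h
  obtain ⟨b, hb⟩ := exists_gt a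
  exact (mk_le_mk_of_subset fun x (hx : x ≤ a) => hx.trans_lt hb).trans_lt
    (mk_Iio_toType_ord_lt b)

/-- small subsets of a regular cardinal are bounded -/
theorem exists_bound {c : Cardinal.{u}} (S : Set c.ord.ToType) (hS : #S < c.ord.cof) :
    ∃ b, ∀ s ∈ S, s < b := by
  have h : ¬ IsCofinal S := fun h => by
    have h1 := Order.cof_le h
    rw [Ordinal.cof_toType] at h1
    exact absurd h1 (not_le.2 hS)
  rw [IsCofinal] at h
  push Not at h
  exact h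

theorem exists_bound_fun {c : Cardinal.{u}} {K : Type u} (f : K → c.ord.ToType)
    (hK : #K < c.ord.cof) : ∃ b, ∀ k, f k < b := by
  obtain ⟨b, hb⟩ := exists_bound (range f) (mk_range_le.trans_lt hK)
  exact ⟨b, fun k => hb _ ⟨k, rfl⟩⟩

theorem Dec.unbdd (h : Dec W ν) (h0 : ℵ₀ ≤ ν) :
    ∃ f : I → ν.ord.ToType, ∀ a, ∀ᶠ x in (W : Filter I), a < f x := by
  obtain ⟨J, f, hJ, hf⟩ := h
  have : #J = #(ν.ord.ToType) := by simp [hJ]
  obtain ⟨e⟩ := Cardinal.eq.1 this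
  refine ⟨fun x => e (f x), fun a => ?_⟩
  have hc : #(Iic a) < ν := mk_Iic_lt h0 a
  have h1 : f ⁻¹' (e ⁻¹' (Iic a)) ∉ W := by
    apply hf
    rw [Cardinal.mk_preimage_equiv]
    exact hc
  have h2 := Ultrafilter.compl_mem_iff_notMem.2 h1
  filter_upwards [h2] with x hx
  simpa using hx

theorem dec_of_unbdd (hν : ν.IsRegular) {f : I → ν.ord.ToType}
    (hf : ∀ a, ∀ᶠ x in (W : Filter I), a < f x) : Dec W ν := by
  refine ⟨ν.ord.ToType, f, by simp, fun A hA hAW => ?_⟩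
  obtain ⟨b, hb⟩ := exists_bound A (by rwa [hν.cof_ord])
  obtain ⟨x, hx, hx'⟩ := (Filter.nonempty_of_mem (Filter.inter_mem hAW (hf b)))
  exact absurd (hb _ hx) (not_lt.2 (le_of_lt hx'))

/-- pushing a `δ`-complete ultrafilter with an unbounded function -/
theorem uni_of_dec (h : Dec W ν) (hν : ℵ₀ ≤ ν) (hW : Cp W δ) : Uni δ ν := by
  obtain ⟨f, hf⟩ := h.unbdd hν
  exact ⟨W.map f, hW.map f, fun a => hf a⟩

/-- no decomposability at a cardinal whose cofinality is below the completeness -/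
theorem not_dec_of_cof (hν : ℵ₀ ≤ ν) (hc : ν.ord.cof < δ) (hW : Cp W δ) : ¬ Dec W ν := by
  intro h
  obtain ⟨f, hf⟩ := h.unbdd hν
  obtain ⟨S, hS, hcS⟩ := Order.exists_cof_eq ν.ord.ToType
  have hSd : #S < δ := by
    rw [hcS, Ordinal.cof_toType]
    exact hc
  have h1 : ∀ x, ∃ s : S, f x ≤ s.1 := fun x => by
    obtain ⟨s, hs, hx⟩ := hS (f x)
    exact ⟨⟨s, hs⟩, hx⟩
  choose g hg using h1
  obtain ⟨s, hs⟩ := hW.fibre hSd g
  obtain ⟨x, hx, hx'⟩ := (hs.and (hf s.1)).exists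
  have := hg x
  rw [hx] at this
  exact absurd hx' (not_lt.2 this)

/-- a function into a cardinal of small cofinality is essentially bounded -/
theorem bdd_of_cof (hc : ν.ord.cof < δ) (hW : Cp W δ) (f : I → ν.ord.ToType) :
    ∃ b, ∀ᶠ x in (W : Filter I), f x ≤ b := by
  obtain ⟨S, hS, hcS⟩ := Order.exists_cof_eq ν.ord.ToType
  have hSd : #S < δ := by
    rw [hcS, Ordinal.cof_toType]
    exact hc
  have h1 : ∀ x, ∃ s : S, f x ≤ s.1 := fun x => by
    obtain ⟨s, hs, hx⟩ := hS (f x)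
    exact ⟨⟨s, hs⟩, hx⟩
  choose g hg using h1
  obtain ⟨s, hs⟩ := hW.fibre hSd g
  refine ⟨s.1, ?_⟩
  filter_upwards [hs] with x hx
  rw [← hx]
  exact hg x

theorem bdd_of_not_dec (hν : ν.IsRegular) (h : ¬ Dec W ν) (f : I → ν.ord.ToType) :
    ∃ b, ∀ᶠ x in (W : Filter I), f x ≤ b := by
  by_contra hc
  push Not at hc
  apply h
  exact dec_of_unbdd hν (f := f) fun a => hc a

end Pool.Agent.H85.ASC
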