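import Pool.Agent.H85.ASC.Setup

open Cardinal Ordinal Filter Set Order

universe u

namespace Pool.Agent.H85.ASC

variable {κ : Cardinal.{u}}

/-- `C` is a closed unbounded set of cardinals below `κ`. -/
structure ClubBelow (C : Set Cardinal.{u}) (κ : Cardinal.{u}) : Prop where
  lt : ∀ χ ∈ C, χ < κ
  unbounded : ∀ μ < κ, ∃ χ ∈ C, μ < χ
  closed : ∀ S ⊆ C, S.Nonempty → sSup S < κ → sSup S ∈ C

/-- The club of closure points -/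
theorem exists_club (h₁ : AlmostSC κ)
    (h₂ : IsLeast {μ : Cardinal.{u} | ℵ₁ ≤ μ ∧ SC ℵ₁ μ} κ) (h₃ : ¬ SC κ κ) :
    ∃ C : Set Cardinal.{u}, ClubBelow C κ ∧ ∀ χ ∈ C, ℵ₁ < χ ∧ (∀ μ < χ, 2 ^ μ < χ) ∧
      (∀ ρ < χ, ∃ l, ρ < l ∧ l < χ ∧ l.IsRegular ∧ ¬ Uni ℵ₁ l) ∧
      ∀ δ, ℵ₁ ≤ δ → δ < χ → ∃ W : Ultrafilter κ.ord.ToType, Cp W δ ∧
        ∀ ρ < χ, ∃ ν, ρ < ν ∧ ν < χ ∧ Dec W ν := by
  classical
  have hr := regular_of_hyp h₁ h₂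
  have h0 : ℵ₀ < κ := aleph0_lt_aleph_one.trans h₁.1
  have hW : ∀ δ : Cardinal.{u}, ∃ W : Ultrafilter κ.ord.ToType, ℵ₁ ≤ δ → δ < κ →
      Cp W δ ∧ ∀ ρ < κ, ∃ ν, ρ < ν ∧ ν < κ ∧ Dec W ν := by
    intro δ
    by_cases h : ℵ₁ ≤ δ ∧ δ < κ
    · obtain ⟨W, hW⟩ := exists_W h₁ h₂ h₃ h.1 h.2
      exact ⟨W, fun _ _ => hW⟩
    · obtain ⟨W, -⟩ := exists_W h₁ h₂ h₃ le_rfl h₁.1
      exact ⟨W, fun h3 h4 => absurd ⟨h3, h4⟩ h⟩
  choose W hW using hW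
  let C : Set Cardinal.{u} := {χ | χ < κ ∧ ℵ₁ < χ ∧ (∀ μ < χ, 2 ^ μ < χ) ∧
      (∀ ρ < χ, ∃ l, ρ < l ∧ l < χ ∧ l.IsRegular ∧ ¬ Uni ℵ₁ l) ∧
      ∀ δ, ℵ₁ ≤ δ → δ < χ → ∀ ρ < χ, ∃ ν, ρ < ν ∧ ν < χ ∧ Dec (W δ) ν}
  refine ⟨C, ⟨fun χ h => h.1, ?_, ?_⟩, ?_⟩
  · -- unbounded
    have hnx : ∀ χ : Cardinal.{u}, ∃ χ' : Cardinal.{u}, χ < κ → χ' < κ ∧ χ < χ' ∧ 2 ^ χ < χ' ∧
        (∃ l, χ < l ∧ l < χ' ∧ l.IsRegular ∧ ¬ Uni ℵ₁ l) ∧
        ∀ δ, ℵ₁ ≤ δ → δ ≤ χ → ∃ ν, χ < ν ∧ ν < χ' ∧ Dec (W δ) ν := by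
      intro χ
      by_cases hχ : χ < κ
      · have h4 : ∀ A : Set χ.out, ∃ ν, ν < κ ∧ (ℵ₁ ≤ #A → χ < ν ∧ Dec (W #A) ν) := by
          intro A
          by_cases hA : ℵ₁ ≤ #A
          · have hAκ : #A < κ := ((mk_set_le A).trans (mk_out χ).le).trans_lt hχ
            obtain ⟨ν, h5, h6, h7⟩ := (hW _ hA hAκ).2 χ hχ
            exact ⟨ν, h6, fun _ => ⟨h5, h7⟩⟩
          · exact ⟨χ, hχ, fun h => absurd h hA⟩
        choose ν hν1 hν2 using h4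
        have h5 : iSup ν < κ := by
          refine iSup_lt_of_isRegular hr ?_ hν1
          rw [mk_set, mk_out]
          exact two_power_lt_of_hyp h₁ h₂ hχ
        obtain ⟨l, hl1, hl2, hl3⟩ := exists_hole h₁ h₂ hχ
        have h6 := two_power_lt_of_hyp h₁ h₂ hχ
        refine ⟨succ (max (max (2 ^ χ) l) (iSup ν)), fun _ => ⟨?_, ?_, ?_, ?_, ?_⟩⟩
        · exact succ_lt_of_hyp h₁ h₂ (max_lt (max_lt h6 hl2) h5)
        · exact (cantor χ).trans (((le_max_left _ _).trans (le_max_left _ _)).trans_lt (lt_succ _))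
        · exact ((le_max_left _ _).trans (le_max_left _ _)).trans_lt (lt_succ _)
        · exact ⟨l, hl1, ((le_max_right _ _).trans (le_max_left _ _)).trans_lt (lt_succ _), hl3⟩
        · intro δ hδ hδχ
          have h7 : δ ≤ #χ.out := by rwa [mk_out]
          obtain ⟨A, rfl⟩ := le_mk_iff_exists_set.1 h7
          refine ⟨ν A, (hν2 A hδ).1, ?_, (hν2 A hδ).2⟩
          have h8 : ν A ≤ iSup ν := le_ciSup (bddAbove_range ν) A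
          exact (h8.trans (le_max_right _ _)).trans_lt (lt_succ _)
      · exact ⟨χ, fun h => absurd h hχ⟩
    choose nx hnx using hnx
    intro μ hμ
    let s : ℕ → Cardinal.{u} := fun n => Nat.rec (max μ ℵ₁) (fun _ x => nx x) n
    have hs1 : ∀ n, s (n + 1) = nx (s n) := fun n => rfl
    have hsκ : ∀ n, s n < κ := by
      intro n
      induction n with
      | zero => exact max_lt hμ h₁.1
      | succ n ih => rw [hs1]; exact (hnx _ ih).1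
    have hsl : ∀ n, s n < s (n + 1) := fun n => by rw [hs1]; exact (hnx _ (hsκ n)).2.1
    have hmono : StrictMono s := strictMono_nat_of_lt_succ hsl
    have hbdd : BddAbove (range s) := bddAbove_range s
    have hle : ∀ n, s n < ⨆ n, s n := fun n => (hsl n).trans_le (le_ciSup hbdd (n + 1))
    have hlt : ∀ x < ⨆ n, s n, ∃ n, x < s n := fun x hx => (lt_ciSup_iff hbdd).1 hx
    refine ⟨⨆ n, s n, ⟨?_, ?_, ?_, ?_, ?_⟩, ?_⟩
    · refine iSup_lt_lift_of_isRegular hr ?_ hsκ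
      simpa using h0
    · exact (le_max_right μ ℵ₁).trans_lt (hle 0)
    · intro x hx
      obtain ⟨n, hn⟩ := hlt x hx
      have h4 := (hnx _ (hsκ n)).2.2.1
      rw [← hs1] at h4
      exact ((power_le_power_left two_ne_zero hn.le).trans_lt h4).trans (hle (n + 1))
    · intro x hx
      obtain ⟨n, hn⟩ := hlt x hx
      obtain ⟨l, hl1, hl2, hl3⟩ := (hnx _ (hsκ n)).2.2.2.1
      rw [← hs1] at hl2
      exact ⟨l, hn.trans hl1, hl2.trans (hle (n + 1)), hl3⟩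
    · intro δ hδ hδχ ρ hρ
      obtain ⟨n, hn⟩ := hlt δ hδχ
      obtain ⟨m, hm⟩ := hlt ρ hρ
      have hn' : δ ≤ s (max n m) := hn.le.trans (hmono.monotone (le_max_left _ _))
      have hm' : ρ < s (max n m) := hm.trans_le (hmono.monotone (le_max_right _ _))
      obtain ⟨ν, hν1, hν2, hν3⟩ := (hnx _ (hsκ (max n m))).2.2.2.2 δ hδ hn'
      rw [← hs1] at hν2
      exact ⟨ν, hm'.trans hν1, hν2.trans (hle (max n m + 1)), hν3⟩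
    · exact (le_max_left μ ℵ₁).trans_lt (hle 0)
  · -- closed
    intro S hS hne hlt
    have hbdd : BddAbove S := ⟨κ, fun χ h => (hS h).1.le⟩
    have hle : ∀ χ ∈ S, χ ≤ sSup S := fun χ h => le_csSup hbdd h
    have hex : ∀ x < sSup S, ∃ χ ∈ S, x < χ := fun x hx => (lt_csSup_iff hbdd hne).1 hx
    refine ⟨hlt, ?_, ?_, ?_, ?_⟩
    · obtain ⟨χ, hχ⟩ := hne
      exact (hS hχ).2.1.trans_le (hle χ hχ)
    · intro x hx
      obtain ⟨χ, hχ, hxχ⟩ := hex x hx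
      exact ((hS hχ).2.2.1 x hxχ).trans_le (hle χ hχ)
    · intro x hx
      obtain ⟨χ, hχ, hxχ⟩ := hex x hx
      obtain ⟨l, hl1, hl2, hl3⟩ := (hS hχ).2.2.2.1 x hxχ
      exact ⟨l, hl1, hl2.trans_le (hle χ hχ), hl3⟩
    · intro δ hδ hδχ ρ hρ
      obtain ⟨χ, hχ, hxχ⟩ := hex (max δ ρ) (max_lt hδχ hρ)
      obtain ⟨ν, hν1, hν2, hν3⟩ := (hS hχ).2.2.2.2 δ hδ ((le_max_left _ _).trans_lt hxχ) ρ
        ((le_max_right _ _).trans_lt hxχ)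
      exact ⟨ν, hν1, hν2.trans_le (hle χ hχ), hν3⟩
  · intro χ hχ
    exact ⟨hχ.2.1, hχ.2.2.1, hχ.2.2.2.1, fun δ hδ hδχ =>
      ⟨W δ, (hW δ hδ (hδχ.trans hχ.1)).1, hχ.2.2.2.2 δ hδ hδχ⟩⟩

/-- on the club, `2 ^ χ > χ^{+χ}` for singular `χ` and for regular `χ` without countably complete
uniform ultrafilter -/
theorem power_of_club {χ : Cardinal.{u}} (h0 : ℵ₁ < χ) (hsl : ∀ μ < χ, 2 ^ μ < χ)
    (hB : ∀ ρ < χ, ∃ l, ρ < l ∧ l < χ ∧ l.IsRegular ∧ ¬ Uni ℵ₁ l)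
    (hD : ∀ δ, ℵ₁ ≤ δ → δ < χ → ∃ W : Ultrafilter κ.ord.ToType, Cp W δ ∧
        ∀ ρ < χ, ∃ ν, ρ < ν ∧ ν < χ ∧ Dec W ν)
    (hχ : χ.IsSingular ∨ ¬ Uni ℵ₁ χ) {o : Ordinal.{u}} (ho : ℵ_ o = χ) :
    ℵ_ (o + χ.ord) < 2 ^ χ := by
  subst ho
  have hsucc : ∀ μ < ℵ_ o, succ μ < ℵ_ o := fun μ hμ =>
    (succ_le_of_lt (cantor μ)).trans_lt (hsl μ hμ)
  refine power_gt hsucc fun δ hδ => ?_
  rcases isRegular_or_isSingular (aleph0_le_aleph o) with hr | hs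
  · have hu : ¬ Uni ℵ₁ (ℵ_ o) := by
      rcases hχ with h | h
      · exact absurd h hr.not_isSingular
      · exact h
    have h1 : max δ ℵ₁ < ℵ_ o := max_lt hδ h0
    obtain ⟨W, hW, hWD⟩ := hD (max δ ℵ₁) (le_max_right _ _) h1
    exact ⟨max δ ℵ₁, le_max_left _ _, h1, power_ge (le_max_right _ _) hW (Or.inr ⟨hr, hu⟩) hB hWD⟩
  · have h1 : succ (max (max δ ℵ₁) (ℵ_ o).ord.cof) < ℵ_ o :=
      hsucc _ (max_lt (max_lt hδ h0) hs.cof_ord_lt)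
    have h2 : ℵ₁ ≤ succ (max (max δ ℵ₁) (ℵ_ o).ord.cof) :=
      ((le_max_right _ _).trans (le_max_left _ _)).trans (le_succ _)
    have h3 : (ℵ_ o).ord.cof < succ (max (max δ ℵ₁) (ℵ_ o).ord.cof) :=
      (le_max_right _ _).trans_lt (lt_succ _)
    obtain ⟨W, hW, hWD⟩ := hD _ h2 h1
    exact ⟨_, ((le_max_left _ _).trans (le_max_left _ _)).trans (le_succ _), h1,
      power_ge h2 hW (Or.inl h3) hB hWD⟩

end Pool.Agent.H85.ASC
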