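import Pool.Agent.H85.ASC.Ketonen

open Cardinal Ordinal Filter Set Order

universe u

namespace Pool.Agent.H85.ASC

variable {I J : Type u} {W : Ultrafilter I} {δ ν κ β χ : Cardinal.{u}}

/-- From a weakly normal ultrafilter on `l` concentrating on small cofinalities one gets a fine
family of small sets. -/
theorem cover {l κ' : Cardinal.{u}} (hl : l.IsRegular) (h0 : 0 < κ')
    (D : Ultrafilter l.ord.ToType) (hD' : ∀ a, Ioi a ∈ D)
    (hwn : ∀ t : l.ord.ToType → l.ord.ToType, (∀ᶠ α in (D : Filter l.ord.ToType), t α < α) →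
        ∃ γ, ∀ᶠ α in (D : Filter l.ord.ToType), t α ≤ γ)
    (hc : ∀ᶠ α in (D : Filter l.ord.ToType), Order.cof (Iio α) < κ') :
    ∃ σ : l.ord.ToType → Set l.ord.ToType, (∀ α, #(σ α) < κ') ∧
      ∀ ξ, ∀ᶠ α in (D : Filter l.ord.ToType), ξ ∈ σ α := by
  classical
  have := Cardinal.noMaxOrder hl.1
  have hE : ∀ α : l.ord.ToType, ∃ E : Set (Iio α), IsCofinal E ∧ #E = Order.cof (Iio α) :=
    fun α => Order.exists_cof_eq _
  choose E hE hEc using hE
  -- the next function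
  have hnx : ∀ γ : l.ord.ToType, ∃ γ' : l.ord.ToType, γ < γ' ∧
      ∀ᶠ α in (D : Filter l.ord.ToType), ∃ e ∈ E α, γ ≤ e.1 ∧ e.1 < γ' := by
    intro γ
    have ht : ∀ α, ∃ x : l.ord.ToType, γ < α → x < α ∧ ∃ e ∈ E α, γ ≤ e.1 ∧ e.1 = x := by
      intro α
      by_cases h : γ < α
      · obtain ⟨e, he, hγe⟩ := hE α ⟨γ, h⟩
        exact ⟨e.1, fun _ => ⟨e.2, e, he, hγe, rfl⟩⟩
      · exact ⟨γ, fun h' => absurd h' h⟩
    choose t ht using ht
    obtain ⟨γ1, hγ1⟩ := hwn t (by filter_upwards [hD' γ] with α hα using (ht α hα).1)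
    obtain ⟨γ2, hγ2⟩ := exists_gt (max γ γ1)
    refine ⟨γ2, (le_max_left _ _).trans_lt hγ2, ?_⟩
    filter_upwards [hD' γ, hγ1] with α hα hα1
    obtain ⟨_, e, he, h1, h2⟩ := ht α hα
    exact ⟨e, he, h1, by rw [h2]; exact hα1.trans_lt ((le_max_right _ _).trans_lt hγ2)⟩
  choose nx hnx1 hnx2 using hnx
  -- the sequence
  have hstep : ∀ (ξ : l.ord.ToType) (η : ∀ ζ, ζ < ξ → l.ord.ToType), ∃ b : l.ord.ToType,
      ∀ ζ (h : ζ < ξ), nx (η ζ h) < b := by
    intro ξ η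
    obtain ⟨b, hb⟩ := exists_bound_fun (fun ζ : Iio ξ => nx (η ζ.1 ζ.2))
      (by rw [hl.cof_ord]; exact mk_Iio_toType_ord_lt ξ)
    exact ⟨b, fun ζ h => hb ⟨ζ, h⟩⟩
  choose step hstep using hstep
  let η : l.ord.ToType → l.ord.ToType :=
    WellFounded.fix (wellFounded_lt (α := l.ord.ToType)) step
  have hη : ∀ ξ, η ξ = step ξ (fun ζ _ => η ζ) := fun ξ =>
    WellFounded.fix_eq (wellFounded_lt (α := l.ord.ToType)) step ξ
  have hη1 : ∀ ξ ζ, ζ < ξ → nx (η ζ) < η ξ := by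
    intro ξ ζ h
    rw [hη ξ]
    exact hstep ξ (fun ζ _ => η ζ) ζ h
  let σ : l.ord.ToType → Set l.ord.ToType := fun α =>
    if Order.cof (Iio α) < κ' then {ξ | ∃ e ∈ E α, η ξ ≤ e.1 ∧ e.1 < nx (η ξ)} else ∅
  refine ⟨σ, fun α => ?_, fun ξ => ?_⟩
  · by_cases h : Order.cof (Iio α) < κ'
    · have hσ : σ α = {ξ | ∃ e ∈ E α, η ξ ≤ e.1 ∧ e.1 < nx (η ξ)} := if_pos h
      rw [hσ]
      have hch : ∀ ξ : {ξ | ∃ e ∈ E α, η ξ ≤ e.1 ∧ e.1 < nx (η ξ)}, ∃ e : E α,
          η ξ.1 ≤ e.1.1 ∧ e.1.1 < nx (η ξ.1) := by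
        rintro ⟨ξ, e, he, h1, h2⟩
        exact ⟨⟨e, he⟩, h1, h2⟩
      choose e he1 he2 using hch
      refine lt_of_le_of_lt (mk_le_of_injective (f := e) ?_) ((hEc α).trans_lt h)
      intro ξ ξ' heq
      have key : ∀ a b : {ξ | ∃ e ∈ E α, η ξ ≤ e.1 ∧ e.1 < nx (η ξ)}, e a = e b →
          ¬ a.1 < b.1 := by
        intro a b hab hlt
        have h1 := he2 a
        have h2 := he1 b
        rw [← hab] at h2
        exact absurd (h2.trans_lt h1) (not_lt.2 (hη1 _ _ hlt).le)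
      refine Subtype.ext ?_
      rcases lt_trichotomy ξ.1 ξ'.1 with h1 | h1 | h1
      · exact absurd h1 (key _ _ heq)
      · exact h1
      · exact absurd h1 (key _ _ heq.symm)
    · have hσ : σ α = ∅ := if_neg h
      rw [hσ]
      simpa using h0
  · filter_upwards [hc, hnx2 (η ξ)] with α h1 h2
    have hσ : σ α = {ξ | ∃ e ∈ E α, η ξ ≤ e.1 ∧ e.1 < nx (η ξ)} := if_pos h1
    rw [hσ]
    exact h2

/-- final segments give a complete filter: regular cardinals above a strongly compact one carry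
uniform complete ultrafilters -/
theorem uni_of_sc {l : Cardinal.{u}} (h : SC δ κ) (hl : l.IsRegular) (hκ : κ ≤ l) : Uni δ l := by
  have := Cardinal.noMaxOrder hl.1
  have hne : Nonempty l.ord.ToType := by
    rw [← mk_ne_zero_iff]
    simp only [mk_toType, card_ord]
    exact (aleph0_pos.trans_le hl.1).ne'
  have hcomp : CardinalInterFilter (atTop : Filter l.ord.ToType) l := by
    constructor
    intro S hS hm
    have h1 : ∀ s : S, ∃ a, Ici a ⊆ s.1 := fun s => mem_atTop_sets.1 (hm s.1 s.2)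
    choose a ha using h1
    obtain ⟨b, hb⟩ := exists_bound_fun a (by rwa [hl.cof_ord])
    refine mem_atTop_sets.2 ⟨b, fun c hc => mem_sInter.2 fun s hs => ?_⟩
    exact ha ⟨s, hs⟩ ((hb ⟨s, hs⟩).le.trans hc)
  obtain ⟨U, hU, hUc⟩ := h l.ord.ToType atTop inferInstance
    (CardinalInterFilter.of_cardinalInterFilter_of_le _ hκ)
  exact ⟨U, hUc, fun a => hU (Ioi_mem_atTop a)⟩

/-- Ketonen: if all regular cardinals `≥ κ'` carry `δ`-complete uniform ultrafilters then `κ'` is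
`δ`-strongly compact. -/
theorem ketonen {κ' : Cardinal.{u}} (hδ : ℵ₁ ≤ δ) (hκ : ℵ₀ < κ')
    (h : ∀ l : Cardinal.{u}, l.IsRegular → κ' ≤ l → Uni δ l) : SC δ κ' := by
  classical
  intro I F hF hFc
  -- a large regular cardinal
  set l : Cardinal.{u} := succ (max #(F.sets) κ') with hldef
  have hl : l.IsRegular := isRegular_succ (hκ.le.trans (le_max_right _ _))
  have hκl : κ' ≤ l := (le_max_right _ _).trans (le_succ _)
  have hFl : #(F.sets) ≤ #(l.ord.ToType) := by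
    simp only [mk_toType, card_ord]
    exact (le_max_left _ _).trans (le_succ _)
  obtain ⟨ι⟩ := hFl
  obtain ⟨D, ⟨hDc, hD'⟩, hwn, hcof⟩ := ketonen_min hδ hl.1 (h l hl hκl)
  have := Cardinal.noMaxOrder hl.1
  -- almost all cofinalities are below κ'
  have hc : ∀ᶠ α in (D : Filter l.ord.ToType), Order.cof (Iio α) < κ' := by
    filter_upwards [hcof] with α hα
    by_contra hge
    have hge' : κ' ≤ Order.cof (Iio α) := not_lt.1 hge
    have h0 : ℵ₀ ≤ Order.cof (Iio α) := hκ.le.trans hge'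
    refine hα ⟨h0, h _ ?_ hge'⟩
    refine ⟨h0, ?_⟩
    rw [Order.cof_ord_cof]
  obtain ⟨σ, hσ1, hσ2⟩ := cover hl (aleph0_pos.trans hκ) D hD' hwn hc
  -- points in the intersections
  have hp : ∀ α, ∃ p : I, ∀ s : F.sets, ι s ∈ σ α → p ∈ s.1 := by
    intro α
    have h1 : ⋂₀ {s : Set I | ∃ h : s ∈ F.sets, ι ⟨s, h⟩ ∈ σ α} ∈ F := by
      refine (@cardinal_sInter_mem _ _ F _ hFc ?_).2 ?_
      · refine lt_of_le_of_lt ?_ (hσ1 α)
        refine mk_le_of_injective (f := fun s => (⟨ι ⟨s.1, s.2.choose⟩, s.2.choose_spec⟩ : σ α)) ?_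
        intro s s' hss
        have h2 := ι.injective (congrArg Subtype.val hss)
        have h3 : s.1 = s'.1 := by simpa using h2
        exact Subtype.ext h3
      · rintro s ⟨h2, _⟩
        exact h2
    obtain ⟨p, hp⟩ := F.nonempty_of_mem h1
    exact ⟨p, fun s hs => mem_sInter.1 hp s.1 ⟨s.2, hs⟩⟩
  choose p hp using hp
  refine ⟨D.map p, ?_, hDc.map p⟩
  intro s hs
  show p ⁻¹' s ∈ D
  filter_upwards [hσ2 (ι ⟨s, hs⟩)] with α hα using hp α ⟨s, hs⟩ hα

end Pool.Agent.H85.ASC
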