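import Pool.Agent.H85.ASC.Club

open Cardinal Ordinal Filter Set Order

universe u

namespace Pool.Agent.H85.ASC

variable {κ : Cardinal.{u}}

/-- a weakly normal uniform ultrafilter concentrates on the points of a club -/
theorem club_mem (hr : κ.IsRegular)
    {C : Set Cardinal.{u}} (hC : ClubBelow C κ) (D : Ultrafilter κ.ord.ToType)
    (hD' : ∀ a, Ioi a ∈ D)
    (hwn : ∀ t : κ.ord.ToType → κ.ord.ToType, (∀ᶠ α in (D : Filter κ.ord.ToType), t α < α) →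
        ∃ γ, ∀ᶠ α in (D : Filter κ.ord.ToType), t α ≤ γ) :
    ∀ᶠ α in (D : Filter κ.ord.ToType), ∃ χ ∈ C, χ.ord = (ToType.toOrd α : Ordinal.{u}) := by
  classical
  by_contra hcon
  have hcon' : ∀ᶠ α in (D : Filter κ.ord.ToType),
      ¬ ∃ χ ∈ C, χ.ord = (ToType.toOrd α : Ordinal.{u}) := Ultrafilter.eventually_not.2 hcon
  have hpos : 0 < κ := aleph0_pos.trans_le hr.1
  obtain ⟨χ0, hχ0, -⟩ := hC.unbounded 0 hpos
  -- the points of the cardinals
  have hpt : ∀ χ : Cardinal.{u}, χ < κ → χ.ord < κ.ord := fun χ h => ord_lt_ord.2 h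
  let S : κ.ord.ToType → Set Cardinal.{u} := fun α =>
    {χ ∈ C | χ.ord < (ToType.toOrd α : Ordinal.{u})}
  have hsup : ∀ α, (sSup (S α)).ord ≤ (ToType.toOrd α : Ordinal.{u}) := by
    intro α
    rw [ord_le]
    refine csSup_le' fun χ hχ => ?_
    have h1 := hχ.2.le
    rwa [ord_le] at h1
  have hsupκ : ∀ α, sSup (S α) < κ := fun α =>
    ord_lt_ord.1 ((hsup α).trans_lt (ToType.toOrd α).2)
  have hbdd : ∀ α, BddAbove (S α) := fun α => ⟨κ, fun χ hχ => (hC.lt χ hχ.1).le⟩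
  let t : κ.ord.ToType → κ.ord.ToType := fun α => ToType.mk ⟨(sSup (S α)).ord, hpt _ (hsupκ α)⟩
  have ht : ∀ α, ((ToType.toOrd (t α) : Iio κ.ord) : Ordinal.{u}) = (sSup (S α)).ord := by
    intro α
    show ((ToType.mk.symm (ToType.mk ⟨(sSup (S α)).ord, hpt _ (hsupκ α)⟩) : Iio κ.ord) :
      Ordinal.{u}) = _
    rw [OrderIso.symm_apply_apply]
  have hreg : ∀ᶠ α in (D : Filter κ.ord.ToType), t α < α := by
    filter_upwards [hcon', hD' (ToType.mk ⟨χ0.ord, hpt _ (hC.lt _ hχ0)⟩)] with α h1 h2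
    have h3 : χ0.ord < (ToType.toOrd α : Ordinal.{u}) := by
      have h4 := ToType.mk.symm.strictMono (mem_Ioi.1 h2)
      rw [OrderIso.symm_apply_apply] at h4
      exact h4
    have h5 : sSup (S α) ∈ C := hC.closed _ (fun χ hχ => hχ.1) ⟨χ0, hχ0, h3⟩ (hsupκ α)
    have h6 : (sSup (S α)).ord < (ToType.toOrd α : Ordinal.{u}) :=
      lt_of_le_of_ne (hsup α) fun h => h1 ⟨_, h5, h⟩
    have h7 : ToType.toOrd (t α) < ToType.toOrd α := by
      rw [← Subtype.coe_lt_coe, ht α]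
      exact h6
    exact ToType.mk.symm.lt_iff_lt.1 h7
  obtain ⟨γ, hγ⟩ := hwn t hreg
  obtain ⟨χ, hχ, hχγ⟩ := hC.unbounded (ToType.toOrd γ : Ordinal.{u}).card
    (lt_ord.1 (ToType.toOrd γ).2)
  have hχγ' : (ToType.toOrd γ : Ordinal.{u}) < χ.ord := lt_ord.2 hχγ
  obtain ⟨α, h1, h2⟩ := (hγ.and (hD' (ToType.mk ⟨χ.ord, hpt _ (hC.lt _ hχ)⟩))).exists
  have h3 : χ.ord < (ToType.toOrd α : Ordinal.{u}) := by
    have h4 := ToType.mk.symm.strictMono (mem_Ioi.1 h2)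
    rw [OrderIso.symm_apply_apply] at h4
    exact h4
  have h5 : χ ≤ sSup (S α) := le_csSup (hbdd α) ⟨hχ, h3⟩
  have h6 : ToType.toOrd (t α) ≤ ToType.toOrd γ := ToType.mk.symm.monotone h1
  rw [← Subtype.coe_le_coe, ht α] at h6
  exact absurd ((ord_le_ord.2 h5).trans h6) (not_le.2 hχγ')

/-- stationarily many inaccessibles without countably complete uniform ultrafilter -/
theorem stationary (h₁ : AlmostSC κ)
    (h₂ : IsLeast {μ : Cardinal.{u} | ℵ₁ ≤ μ ∧ SC ℵ₁ μ} κ)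
    {C C' : Set Cardinal.{u}} (hC : ClubBelow C κ) (hC' : ClubBelow C' κ)
    (hinf : ∀ χ ∈ C, ℵ₀ < χ) :
    ∃ χ ∈ C ∩ C', χ.IsRegular ∧ ¬ Uni ℵ₁ χ := by
  classical
  have hr := regular_of_hyp h₁ h₂
  obtain ⟨D, ⟨hDc, hD'⟩, hwn, hcof⟩ := ketonen_min (δ := ℵ₁) le_rfl hr.1
    (uni_of_sc h₂.1.2 hr le_rfl)
  have hE := club_mem hr hC D hD' hwn
  have hE' := club_mem hr hC' D hD' hwn
  by_contra hcon
  push Not at hcon
  -- almost all points have small cofinality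
  have hsmall : ∀ᶠ α in (D : Filter κ.ord.ToType),
      (Order.cof (Iio α)).ord < (ToType.toOrd α : Ordinal.{u}) := by
    filter_upwards [hE, hE', hcof] with α h3 h4 h5
    obtain ⟨χ, hχ, hχα⟩ := h3
    obtain ⟨χ', hχ', hχα'⟩ := h4
    have h6 : χ = χ' := ord_injective (hχα.trans hχα'.symm)
    subst h6
    have h7 : Order.cof (Iio α) = χ.ord.cof := by
      rw [Order.cof_Iio]
      rw [hχα]
      rfl
    rw [h7, ← hχα, ord_lt_ord]
    by_contra h8
    have h9 : χ.IsRegular := ⟨(hinf χ hχ).le, not_lt.1 h8⟩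
    refine h5 ⟨?_, ?_⟩
    · rw [h7, h9.cof_ord]
      exact (hinf χ hχ).le
    · rw [h7, h9.cof_ord]
      exact hcon χ ⟨hχ, hχ'⟩ h9
  -- hence bounded cofinality
  have hcκ : ∀ α : κ.ord.ToType, (Order.cof (Iio α)).ord < κ.ord := fun α => by
    refine ord_lt_ord.2 ((Order.cof_le_cardinalMk _).trans_lt (mk_Iio_toType_ord_lt α))
  obtain ⟨γ, hγ⟩ := hwn (fun α => ToType.mk ⟨(Order.cof (Iio α)).ord, hcκ α⟩) (by
    filter_upwards [hsmall] with α hα
    rw [← ToType.mk.symm.lt_iff_lt, OrderIso.symm_apply_apply, ← Subtype.coe_lt_coe]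
    exact hα)
  set κ' : Cardinal.{u} := succ (max (ToType.toOrd γ : Ordinal.{u}).card ℵ₀) with hκ'
  have hγκ : (ToType.toOrd γ : Ordinal.{u}).card < κ := lt_ord.1 (ToType.toOrd γ).2
  have hκ'κ : κ' < κ := succ_lt_of_hyp h₁ h₂ (max_lt hγκ (aleph0_lt_aleph_one.trans h₁.1))
  have hc : ∀ᶠ α in (D : Filter κ.ord.ToType), Order.cof (Iio α) < κ' := by
    filter_upwards [hγ] with α hα
    rw [← ToType.mk.symm.le_iff_le, OrderIso.symm_apply_apply, ← Subtype.coe_le_coe] at hα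
    have h3 : Order.cof (Iio α) ≤ (ToType.toOrd γ : Ordinal.{u}).card := by
      have h4 := Ordinal.card_le_card hα
      simpa using h4
    exact h3.trans_lt ((le_max_left _ _).trans_lt (lt_succ _))
  obtain ⟨σ, hσ1, hσ2⟩ := cover hr
    (aleph0_pos.trans_le ((le_max_right _ _).trans (le_succ _))) D hD' hwn hc
  obtain ⟨l, hl1, hl2, hl3, hl4⟩ := exists_hole h₁ h₂ hκ'κ
  -- push forward to `l`
  have hlκ : l.ord ≤ κ.ord := ord_le_ord.2 hl2.le
  have hιb : ∀ ξ : l.ord.ToType, (ToType.toOrd ξ : Ordinal.{u}) < κ.ord := fun ξ =>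
    lt_of_lt_of_le (mem_Iio.1 (ToType.toOrd ξ).2) hlκ
  let ι : l.ord.ToType → κ.ord.ToType := fun ξ =>
    ToType.mk ⟨(ToType.toOrd ξ : Ordinal.{u}), hιb ξ⟩
  have hι : Function.Injective ι := by
    intro ξ ξ' h
    have h3 := ToType.mk.injective h
    have h4 : ((ToType.toOrd ξ : Iio l.ord) : Ordinal.{u}) = (ToType.toOrd ξ' : Iio l.ord) :=
      Subtype.mk.inj h3
    exact ToType.mk.symm.injective (Subtype.ext h4)
  have hb : ∀ α, ∃ b : l.ord.ToType, ∀ ξ, ι ξ ∈ σ α → ξ < b := by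
    intro α
    obtain ⟨b, hb⟩ := exists_bound (ι ⁻¹' σ α) (by
      rw [hl3.cof_ord]
      exact ((mk_preimage_of_injective _ _ hι).trans_lt (hσ1 α)).trans hl1)
    exact ⟨b, fun ξ h => hb ξ h⟩
  choose f hf using hb
  refine hl4 ⟨D.map f, hDc.map f, fun a => ?_⟩
  show f ⁻¹' (Ioi a) ∈ D
  filter_upwards [hσ2 (ι a)] with α hα using hf α a hα

end Pool.Agent.H85.ASC
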