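import Pool.Agent.H85.ASC.Cover

open Cardinal Ordinal Filter Set Order

universe u

namespace Pool.Agent.H85.ASC

variable {I J : Type u} {W : Ultrafilter I} {δ ν κ β χ : Cardinal.{u}}

/-- fine complete ultrafilters -/
theorem exists_fine (h : SC δ κ) (hκ : κ.IsRegular) (Λ : Type u) :
    ∃ U : Ultrafilter {σ : Set Λ // #σ < κ}, Cp U δ ∧
      ∀ a, ∀ᶠ σ in (U : Filter {σ : Set Λ // #σ < κ}), a ∈ σ.1 := by
  let P := {σ : Set Λ // #σ < κ}
  -- the filter
  let F : Filter P :=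
    { sets := {X | ∃ T : P, {σ : P | T.1 ⊆ σ.1} ⊆ X}
      univ_sets := ⟨⟨∅, by simpa using hκ.pos⟩, subset_univ _⟩
      sets_of_superset := fun ⟨T, hT⟩ h' => ⟨T, hT.trans h'⟩
      inter_sets := by
        rintro X Y ⟨T, hT⟩ ⟨T', hT'⟩
        refine ⟨⟨T.1 ∪ T'.1, (mk_union_le _ _).trans_lt (add_lt_of_lt hκ.1 T.2 T'.2)⟩, ?_⟩
        intro σ hσ
        exact ⟨hT (subset_union_left.trans hσ), hT' (subset_union_right.trans hσ)⟩ }
  have hF : F.NeBot := by
    rw [neBot_iff, ne_eq, ← Filter.empty_mem_iff_bot]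
    rintro ⟨T, hT⟩
    exact hT (show T.1 ⊆ T.1 from Subset.rfl)
  have hFc : CardinalInterFilter F κ := by
    constructor
    intro S hS hm
    have h1 : ∀ s : S, ∃ T : P, {σ : P | T.1 ⊆ σ.1} ⊆ s.1 := fun s => hm s.1 s.2
    choose T hT using h1
    refine ⟨⟨⋃ s : S, (T s).1, ?_⟩, ?_⟩
    · exact (card_iUnion_lt_iff_forall_of_isRegular hκ hS).2 fun s => (T s).2
    · intro σ hσ
      rw [mem_sInter]
      intro s hs
      exact hT ⟨s, hs⟩ ((subset_iUnion (fun s : S => (T s).1) ⟨s, hs⟩).trans hσ)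
  obtain ⟨U, hU, hUc⟩ := h P F hF hFc
  refine ⟨U, hUc, fun a => hU ?_⟩
  refine ⟨⟨{a}, by simpa using lt_of_lt_of_le one_lt_aleph0 hκ.1⟩, ?_⟩
  intro σ hσ
  exact hσ rfl

/-- The limit along a `κ`-complete uniform ultrafilter shows that a measurable almost strongly
compact cardinal is strongly compact. -/
theorem sc_of_measurable (hκ : κ.IsRegular) (h1 : ℵ₁ < κ)
    (hlim : ∀ μ < κ, succ μ < κ) (h : ∀ δ : Cardinal.{u}, ℵ₁ ≤ δ → δ < κ → SC δ κ)
    (V : Ultrafilter κ.ord.ToType) (hV : Cp V κ) (hV' : ∀ a, Ioi a ∈ V) : SC κ κ := by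
  intro I F hF hFc
  let d : κ.ord.ToType → Cardinal.{u} := fun α => succ (max #(Iio α) ℵ₁)
  have hd : ∀ α, d α < κ := fun α => hlim _ (max_lt (mk_Iio_toType_ord_lt α) h1)
  have hU : ∀ α, ∃ U : Ultrafilter I, (U : Filter I) ≤ F ∧ Cp U (d α) := fun α =>
    h (d α) ((le_max_right _ _).trans (le_succ _)) (hd α) I F hF hFc
  choose U hU1 hU2 using hU
  refine ⟨V.bind U, ?_, ?_⟩
  · intro s hs
    show ∀ᶠ α in (V : Filter κ.ord.ToType), s ∈ U α
    exact Eventually.of_forall fun α => hU1 α hs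
  · constructor
    intro S hS hm
    have h2 : ∀ᶠ α in (V : Filter κ.ord.ToType), ∀ s : S, s.1 ∈ U α :=
      hV.all hS fun s => hm s.1 s.2
    -- a point with many predecessors
    have h3 : ∃ a : κ.ord.ToType, #S ≤ #(Iio a) := by
      have h4 : #S ≤ #(κ.ord.ToType) := by
        simp only [mk_toType, card_ord]
        exact hS.le
      obtain ⟨i⟩ := h4
      obtain ⟨b, hb⟩ := exists_bound_fun i (by rwa [hκ.cof_ord])
      exact ⟨b, mk_le_of_injective (f := fun s => (⟨i s, hb s⟩ : Iio b)) fun s t hst =>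
        i.injective (congrArg Subtype.val hst)⟩
    obtain ⟨a, ha⟩ := h3
    show ∀ᶠ α in (V : Filter κ.ord.ToType), ⋂₀ S ∈ U α
    filter_upwards [h2, hV' a] with α h4 h5
    have := hU2 α
    refine (cardinal_sInter_mem (l := (U α : Filter I)) (c := d α) ?_).2 fun s hs => h4 ⟨s, hs⟩
    refine lt_succ_iff.2 (ha.trans ((mk_le_mk_of_subset ?_).trans (le_max_left _ _)))
    exact fun x (hx : x < a) => hx.trans h5

end Pool.Agent.H85.ASC
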