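import Pool.Agent.H85.ASC.Basic

open Cardinal Ordinal Filter Set Order

universe u

namespace Pool.Agent.H85.ASC

variable {I J : Type u} {W : Ultrafilter I} {δ ν κ β : Cardinal.{u}}

/-- Kunen-Prikry: if `W` is `β⁺`-decomposable and all functions into `β` are essentially bounded,
then `W` is decomposable at all regular cardinals in a final part of `β`, `β` included. -/
theorem kunen_prikry (hβ : ℵ₀ ≤ β) (h : Dec W (succ β))
    (hb : ∀ f : I → β.ord.ToType, ∃ b, ∀ᶠ x in (W : Filter I), f x ≤ b) :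
    ∃ b : β.ord.ToType, ∀ ρ : Cardinal.{u}, ρ.IsRegular → #(Iic b) < ρ → ρ ≤ β → Dec W ρ := by
  classical
  have hsβ : ℵ₀ ≤ succ β := hβ.trans (le_succ β)
  obtain ⟨f, hf⟩ := h.unbdd hsβ
  have hne : Nonempty β.ord.ToType := by
    rw [← mk_ne_zero_iff]
    simp only [mk_toType, card_ord]
    exact (aleph0_pos.trans_le hβ).ne'
  -- the injections
  have hinj : ∀ α : (succ β).ord.ToType, ∃ e : (succ β).ord.ToType → β.ord.ToType,
      InjOn e (Iio α) := fun α => by
    have h1 : #(Iio α) ≤ #(β.ord.ToType) := by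
      simp only [mk_toType, card_ord]
      exact lt_succ_iff.1 (mk_Iio_toType_ord_lt α)
    obtain ⟨e⟩ := h1
    refine ⟨fun x => if hx : x ∈ Iio α then e ⟨x, hx⟩ else hne.some, ?_⟩
    intro x hx y hy hxy
    simp only [hx, hy, dite_true] at hxy
    exact congrArg Subtype.val (e.injective hxy)
  choose e he using hinj
  choose b hbb using fun ξ => hb fun x => e (f x) ξ
  -- pigeonhole
  obtain ⟨b0, hb0⟩ : ∃ b0, succ β ≤ #(b ⁻¹' {b0}) := by
    refine infinite_pigeonhole_card_lt b ?_ ?_ |>.imp fun a ha => ?_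
    · simp only [mk_toType, card_ord]
      exact lt_succ β
    · simp only [mk_toType, card_ord]
      exact hsβ
    · exact succ_le_of_lt (by simpa using ha)
  refine ⟨b0, fun ρ hρ hbρ hρβ => ?_⟩
  -- an injection of `ρ` into the fibre
  have h2 : #(ρ.ord.ToType) ≤ #(b ⁻¹' {b0}) := by
    simp only [mk_toType, card_ord]
    exact hρβ.trans ((le_succ β).trans hb0)
  obtain ⟨s⟩ := h2
  -- the function
  have hF : ∀ x, ∃ c : ρ.ord.ToType, ∀ i, (s i).1 < f x → e (f x) (s i).1 ≤ b0 → i < c := by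
    intro x
    have hcard : #{i : ρ.ord.ToType | (s i).1 < f x ∧ e (f x) (s i).1 ≤ b0} < ρ.ord.cof := by
      rw [hρ.cof_ord]
      refine lt_of_le_of_lt ?_ hbρ
      refine mk_le_of_injective (f := fun i => (⟨e (f x) (s i.1).1, i.2.2⟩ : Iic b0)) ?_
      intro i j hij
      have h3 : e (f x) (s i.1).1 = e (f x) (s j.1).1 := congrArg Subtype.val hij
      have h4 := he (f x) i.2.1 j.2.1 h3
      exact Subtype.ext (s.injective (Subtype.ext h4))
    obtain ⟨c, hc⟩ := exists_bound _ hcard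
    exact ⟨c, fun i h1 h2 => hc i ⟨h1, h2⟩⟩
  choose F hFs using hF
  refine dec_of_unbdd hρ (f := F) fun i => ?_
  have h5 : b (s i).1 = b0 := (s i).2
  have h6 := hbb (s i).1
  filter_upwards [hf (s i).1, h6] with x hx hx'
  rw [h5] at hx'
  exact hFs x i hx hx'

/-- regular case -/
theorem kunen_prikry_regular (hβ : β.IsRegular) (h : Dec W (succ β)) : Dec W β := by
  by_contra hc
  obtain ⟨b, hb⟩ := kunen_prikry hβ.1 h (bdd_of_not_dec hβ hc)
  exact hc (hb β hβ (mk_Iic_lt hβ.1 b) le_rfl)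

end Pool.Agent.H85.ASC
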