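import Pool.Agent.H85.ASC.Silver

open Cardinal Ordinal Filter Set Order

universe u

namespace Pool.Agent.H85.ASC

variable {I J : Type u} {W : Ultrafilter I} {δ ν κ β χ : Cardinal.{u}}

/-- the Ketonen order on countably complete ultrafilters is well founded -/
theorem ketonen_wf {L : Type u} [LinearOrder L] [WellFoundedLT L] (D : ℕ → Ultrafilter L)
    (hD : ∀ n, Cp (D n) ℵ₁) (Z : ℕ → L → Ultrafilter L) (hZ : ∀ n α, Cp (Z n α) ℵ₁)
    (hZ' : ∀ n, ∀ᶠ α in (D n : Filter L), Iio α ∈ Z n α)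
    (hs : ∀ n, D (n + 1) = (D n).bind (Z n)) : False := by
  -- the sets `R k n`
  let R : ℕ → ℕ → Set L := fun k => Nat.rec (fun n => {α | Iio α ∈ Z n α})
    (fun _ S n => {α | Iio α ∈ Z n α ∧ S (n + 1) ∈ Z n α}) k
  have hR0 : ∀ n, R 0 n = {α | Iio α ∈ Z n α} := fun n => rfl
  have hRs : ∀ k n, R (k + 1) n = {α | Iio α ∈ Z n α ∧ R k (n + 1) ∈ Z n α} := fun k n => rfl
  have hmem : ∀ k n, R k n ∈ D n := by
    intro k
    induction k with
    | zero => intro n; rw [hR0]; exact hZ' n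
    | succ k ih =>
      intro n
      rw [hRs]
      have h1 := ih (n + 1)
      rw [hs n] at h1
      have h2 : ∀ᶠ α in (D n : Filter L), R k (n + 1) ∈ Z n α := h1
      filter_upwards [hZ' n, h2] with α h3 h4
      exact ⟨h3, h4⟩
  have hall : ∀ n (U : Ultrafilter L), Cp U ℵ₁ → (∀ k, R k n ∈ U) → (⋂ k, R k n) ∈ U := by
    intro n U hU hk
    have := @CardinalInterFilter.toCountableInterFilter _ _ (U : Filter L) hU
      (by exact aleph0_lt_aleph_one)
    exact countable_iInter_mem.2 hk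
  have hne : ∃ α : L, ∃ n, α ∈ ⋂ k, R k n := by
    obtain ⟨α, hα⟩ := (D 0).nonempty_of_mem (hall 0 (D 0) (hD 0) fun k => hmem k 0)
    exact ⟨α, 0, hα⟩
  obtain ⟨α, ⟨n, hα⟩, hmin⟩ := WellFounded.has_min (wellFounded_lt (α := L))
    {α | ∃ n, α ∈ ⋂ k, R k n} hne
  have h1 : ∀ k, R k (n + 1) ∈ Z n α := by
    intro k
    have := mem_iInter.1 hα (k + 1)
    rw [hRs] at this
    exact this.2
  have h2 : Iio α ∈ Z n α := by
    have := mem_iInter.1 hα 0
    rw [hR0] at this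
    exact this
  obtain ⟨x, hx, hx'⟩ := Filter.nonempty_of_mem
    (Filter.inter_mem h2 (hall (n + 1) (Z n α) (hZ n α) h1))
  exact hmin x ⟨n + 1, hx'⟩ hx

/-- A uniform `δ`-complete ultrafilter on (the type of) an infinite regular cardinal. -/
def Good {l : Cardinal.{u}} (δ : Cardinal.{u}) (D : Ultrafilter l.ord.ToType) : Prop :=
  Cp D δ ∧ ∀ a, Ioi a ∈ D

/-- Ketonen minimal ultrafilter: weakly normal, and the cofinalities carry no `δ`-complete
uniform ultrafilter almost everywhere. -/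
theorem ketonen_min {l : Cardinal.{u}} (hδ : ℵ₁ ≤ δ) (hl : ℵ₀ ≤ l) (h : Uni δ l) :
    ∃ D : Ultrafilter l.ord.ToType, Good δ D ∧
      (∀ t : l.ord.ToType → l.ord.ToType, (∀ᶠ α in (D : Filter l.ord.ToType), t α < α) →
        ∃ γ, ∀ᶠ α in (D : Filter l.ord.ToType), t α ≤ γ) ∧
      ∀ᶠ α in (D : Filter l.ord.ToType), ¬ (ℵ₀ ≤ Order.cof (Iio α) ∧ Uni δ (Order.cof (Iio α))) := by
  classical
  by_contra hcon
  push Not at hcon
  have := Cardinal.noMaxOrder hl
  -- the ultrafilters attached to the ordinals whose cofinality carries one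
  have hZ : ∀ α : l.ord.ToType, ∃ Z : Ultrafilter l.ord.ToType, Cp Z δ ∧
      ((ℵ₀ ≤ Order.cof (Iio α) ∧ Uni δ (Order.cof (Iio α))) →
        Iio α ∈ Z ∧ ∀ γ < α, Ioi γ ∈ Z) := by
    intro α
    by_cases hα : ℵ₀ ≤ Order.cof (Iio α) ∧ Uni δ (Order.cof (Iio α))
    · obtain ⟨hα0, U, hU, hU'⟩ := hα
      obtain ⟨S, hS, hcS⟩ := Order.exists_cof_eq (Iio α)
      have hcard : #S = #((Order.cof (Iio α)).ord.ToType) := by simp [hcS]
      obtain ⟨e⟩ := Cardinal.eq.1 hcard
      -- upper bounds of initial parts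
      have hb : ∀ j : (Order.cof (Iio α)).ord.ToType, ∃ b : Iio α, ∀ i < j,
          (e.symm i).1 < b := by
        intro j
        have hno : ¬ IsCofinal ((fun i => (e.symm i).1) '' Iio j) := by
          intro hcof
          have h1 := Order.cof_le hcof
          have h2 : #((fun i => (e.symm i).1) '' Iio j) < Order.cof (Iio α) :=
            mk_image_le.trans_lt (mk_Iio_toType_ord_lt j)
          exact absurd h1 (not_le.2 h2)
        rw [IsCofinal] at hno
        push Not at hno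
        obtain ⟨b, hb⟩ := hno
        exact ⟨b, fun i hi => hb _ ⟨i, hi, rfl⟩⟩
      choose φ hφ using hb
      refine ⟨U.map (fun j => (φ j).1), hU.map _, fun _ => ⟨?_, ?_⟩⟩
      · show (fun j => (φ j).1) ⁻¹' (Iio α) ∈ U
        exact Filter.mem_of_superset Filter.univ_mem fun j _ => (φ j).2
      · intro γ hγ
        obtain ⟨s, hs, hγs⟩ := hS ⟨γ, hγ⟩
        show (fun j => (φ j).1) ⁻¹' (Ioi γ) ∈ U
        filter_upwards [hU' (e ⟨s, hs⟩)] with j hj
        have h1 := hφ j (e ⟨s, hs⟩) hj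
        rw [Equiv.symm_apply_apply] at h1
        have h2 : γ ≤ s.1 := hγs
        exact lt_of_le_of_lt h2 h1
    · exact ⟨Pure.pure α, Cp.pure _ _, fun h => absurd h hα⟩
  choose Z hZc hZg using hZ
  -- the step
  have hstep : ∀ D : {D : Ultrafilter l.ord.ToType // Good δ D},
      ∃ Y : l.ord.ToType → Ultrafilter l.ord.ToType, (∀ α, Cp (Y α) δ) ∧
        (∀ᶠ α in (D.1 : Filter l.ord.ToType), Iio α ∈ Y α) ∧ Good δ (D.1.bind Y) := by
    rintro ⟨D, hD, hD'⟩
    by_cases hwn : ∀ t : l.ord.ToType → l.ord.ToType,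
        (∀ᶠ α in (D : Filter l.ord.ToType), t α < α) →
        ∃ γ, ∀ᶠ α in (D : Filter l.ord.ToType), t α ≤ γ
    · have h1 := hcon D ⟨hD, hD'⟩ hwn
      have h2 : ∀ᶠ α in (D : Filter l.ord.ToType),
          (ℵ₀ ≤ Order.cof (Iio α) ∧ Uni δ (Order.cof (Iio α))) := by
        simpa using h1
      refine ⟨Z, hZc, ?_, hD.bind hZc, ?_⟩
      · filter_upwards [h2] with α hα using (hZg α hα).1
      · intro a
        show ∀ᶠ α in (D : Filter l.ord.ToType), Ioi a ∈ Z α
        filter_upwards [h2, hD' a] with α hα ha using (hZg α hα).2 a ha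
    · push Not at hwn
      obtain ⟨t, ht, htb⟩ := hwn
      refine ⟨fun α => Pure.pure (t α), fun α => Cp.pure _ _, ?_, hD.bind fun α => Cp.pure _ _, ?_⟩
      · filter_upwards [ht] with α hα using hα
      · intro a
        show ∀ᶠ α in (D : Filter l.ord.ToType), t α ∈ Ioi a
        exact htb a
  choose Y hY1 hY2 hY3 using hstep
  obtain ⟨D0, hD0, hD0'⟩ := h
  let D : ℕ → {D : Ultrafilter l.ord.ToType // Good δ D} := fun n =>
    Nat.rec ⟨D0, hD0, hD0'⟩ (fun _ D => ⟨D.1.bind (Y D), hY3 D⟩) n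
  have hDs : ∀ n, (D (n + 1)).1 = (D n).1.bind (Y (D n)) := fun n => rfl
  exact ketonen_wf (fun n => (D n).1) (fun n => (D n).2.1.mono hδ) (fun n => Y (D n))
    (fun n α => (hY1 _ α).mono hδ) (fun n => hY2 _) hDs

end Pool.Agent.H85.ASC
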