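import Pool.Agent.H85.ASC.Inner

open Cardinal Ordinal Filter Set Order

universe u

namespace Pool.Agent.H85.ASC

variable {κ : Cardinal.{u}}

/-- If a uniform ultrafilter on the inaccessible almost strongly compact `κ` is not decomposable in
`[τ, κ)` then `κ` is measurable. -/
theorem measurable_of_indec (hr : κ.IsRegular) (hsl : ∀ μ < κ, 2 ^ μ < κ) (h1 : ℵ₁ < κ)
    (h : ∀ δ : Cardinal.{u}, ℵ₁ ≤ δ → δ < κ → SC δ κ)
    (W : Ultrafilter κ.ord.ToType) (hW' : ∀ a, Ioi a ∈ W) {τ : Cardinal.{u}} (hτ : ℵ₀ ≤ τ)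
    (hτκ : τ < κ) (hno : ∀ ν, τ ≤ ν → ν < κ → ¬ Dec W ν) :
    ∃ V : Ultrafilter κ.ord.ToType, Cp V κ ∧ ∀ a, Ioi a ∈ V := by
  classical
  obtain ⟨J, g, hJ, hg⟩ := silver_global hτ (hsl τ hτκ) hno
  have hJκ : #J < κ := hJ.trans hτκ
  have hlim : ∀ μ < κ, succ μ < κ := fun μ hμ =>
    (succ_le_of_lt (cantor μ)).trans_lt (hsl μ hμ)
  -- the fine ultrafilter
  have hδ : succ (max (2 ^ #J) ℵ₁) < κ := hlim _ (max_lt (hsl _ hJκ) h1)
  obtain ⟨U, hUc, hUf⟩ := exists_fine (h _ ((le_max_right _ _).trans (le_succ _)) hδ) hr (Set κ.ord.ToType)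
  have hJδ : #J < succ (max (2 ^ #J) ℵ₁) :=
    (cantor _).trans ((le_max_left _ _).trans_lt (lt_succ _))
  have h2Jδ : #(Set J) < succ (max (2 ^ #J) ℵ₁) := by
    rw [mk_set]
    exact (le_max_left _ _).trans_lt (lt_succ _)
  -- the traces
  have hγ : ∀ σ : {σ : Set (Set κ.ord.ToType) // #σ < κ}, ∃ γ : J → κ.ord.ToType, ∀ᶠ x in (W : Filter κ.ord.ToType),
      ∀ s ∈ σ.1, (γ (g x) ∈ s ↔ x ∈ s) := by
    intro σ
    have hc : #(Set σ.1) < κ := by
      rw [mk_set]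
      exact hsl _ σ.2
    obtain ⟨q, hq⟩ := hg (Set σ.1) (fun x => {s : σ.1 | x ∈ s.1}) hc
    obtain ⟨x0, -⟩ := W.nonempty_of_mem hq
    refine ⟨fun j => if h : ∃ x, g x = j ∧ {s : σ.1 | x ∈ s.1} = q j then h.choose else x0, ?_⟩
    filter_upwards [hq] with x hx s hs
    have hex : ∃ y, g y = g x ∧ {s : σ.1 | y ∈ s.1} = q (g x) := ⟨x, rfl, hx⟩
    rw [dif_pos hex]
    have h4 := Set.ext_iff.1 (hex.choose_spec.2.trans hx.symm) ⟨s, hs⟩
    exact h4
  choose γ hγ using hγ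
  -- the ultrafilters
  let V : J → Ultrafilter κ.ord.ToType := fun j => U.map fun σ => γ σ j
  have key : ∀ Y : J → Set κ.ord.ToType, (∀ᶠ x in (W : Filter κ.ord.ToType), x ∈ Y (g x)) →
      ∀ᶠ x in (W : Filter κ.ord.ToType), Y (g x) ∈ V (g x) := by
    intro Y hY
    have h2 : ∀ᶠ σ in (U : Filter {σ : Set (Set κ.ord.ToType) // #σ < κ}), ∀ j, Y j ∈ σ.1 := hUc.all hJδ fun j => hUf (Y j)
    obtain ⟨R, hR⟩ := hUc.fibre h2Jδ fun σ => {j | γ σ j ∈ Y j}
    have h3 : ∀ᶠ x in (W : Filter κ.ord.ToType), g x ∈ R := by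
      obtain ⟨σ, hσ, hσR⟩ := (h2.and hR).exists
      rw [← hσR]
      filter_upwards [hY, hγ σ] with x hx hx'
      exact (hx' _ (hσ _)).2 hx
    filter_upwards [h3] with x hx
    show (fun σ => γ σ (g x)) ⁻¹' (Y (g x)) ∈ U
    filter_upwards [hR] with σ hσ
    rw [← hσ] at hx
    exact hx
  -- completeness
  have hcomp : ∀ᶠ x in (W : Filter κ.ord.ToType), Cp (V (g x)) κ := by
    by_contra hbad
    rw [← Ultrafilter.eventually_not] at hbad
    have h2 : ∀ j : J, ∃ S : Set (Set κ.ord.ToType), #S < κ ∧ (¬ Cp (V j) κ → (∀ s ∈ S, s ∈ V j) ∧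
        ⋂₀ S ∉ V j) := by
      intro j
      by_cases hj : Cp (V j) κ
      · exact ⟨∅, by simpa using hr.pos, fun h => absurd hj h⟩
      · have : ∃ S : Set (Set κ.ord.ToType), #S < κ ∧ (∀ s ∈ S, s ∈ V j) ∧ ⋂₀ S ∉ V j := by
          by_contra hc
          push Not at hc
          exact hj ⟨fun S hS hm => hc S hS hm⟩
        obtain ⟨S, hS, hm, hn⟩ := this
        exact ⟨S, hS, fun _ => ⟨hm, hn⟩⟩
    choose S hS1 hS2 using h2
    have hU : #(⋃ j, S j) < κ := (card_iUnion_lt_iff_forall_of_isRegular hr hJκ).2 hS1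
    have hK : #(Option (⋃ j, S j : Set (Set κ.ord.ToType))) < κ := by
      rw [mk_option]
      exact add_lt_of_lt hr.1 hU (one_lt_aleph0.trans_le hr.1)
    have hex : ∀ x : κ.ord.ToType, ∃ o : Option (⋃ j, S j : Set (Set κ.ord.ToType)),
        (∀ s, o = some s → s.1 ∈ S (g x) ∧ x ∉ s.1) ∧ (o = none → x ∈ ⋂₀ S (g x)) := by
      intro x
      by_cases hx : x ∈ ⋂₀ S (g x)
      · exact ⟨none, by simp, fun _ => hx⟩
      · rw [mem_sInter] at hx
        push Not at hx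
        obtain ⟨s, hs, hxs⟩ := hx
        refine ⟨some ⟨s, mem_iUnion.2 ⟨_, hs⟩⟩, ?_, by simp⟩
        rintro t ht
        rw [Option.some.injEq] at ht
        rw [← ht]
        exact ⟨hs, hxs⟩
    choose o ho1 ho2 using hex
    obtain ⟨q, hq⟩ := hg _ o hK
    have h3 := key (fun j => {x | (∀ s, q j = some s → s.1 ∈ S j ∧ x ∉ s.1) ∧
      (q j = none → x ∈ ⋂₀ S j)}) (by
        filter_upwards [hq] with x hx
        rw [← hx] 
        exact ⟨ho1 x, ho2 x⟩)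
    obtain ⟨x, hx, hx', hxo⟩ := (hbad.and (h3.and hq)).exists
    obtain ⟨hm, hn⟩ := hS2 (g x) hx
    rcases hqx : q (g x) with _ | s
    · apply hn
      refine Filter.mem_of_superset hx' fun y hy => hy.2 hqx
    · have h4 : s.1 ∈ S (g x) := by
        obtain ⟨y, hy⟩ := (V (g x)).nonempty_of_mem hx'
        exact (hy.1 s hqx).1
      have h5 : (s.1)ᶜ ∈ V (g x) := Filter.mem_of_superset hx' fun y hy => (hy.1 s hqx).2
      exact absurd (hm _ h4) (Ultrafilter.compl_mem_iff_notMem.1 h5)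
  -- uniformity
  have huni : ∀ᶠ x in (W : Filter κ.ord.ToType), ∀ a, Ioi a ∈ V (g x) := by
    by_contra hbad
    rw [← Ultrafilter.eventually_not] at hbad
    have h2 : ∀ j : J, ∃ a : κ.ord.ToType, (¬ ∀ a, Ioi a ∈ V j) → Ioi a ∉ V j := by
      intro j
      by_cases hj : ∀ a, Ioi a ∈ V j
      · obtain ⟨x0, -⟩ := W.nonempty_of_mem hcomp
        exact ⟨x0, fun h => absurd hj h⟩
      · push Not at hj
        obtain ⟨a, ha⟩ := hj
        exact ⟨a, fun _ => ha⟩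
    choose a ha using h2
    obtain ⟨b, hb⟩ := exists_bound_fun a (by rwa [hr.cof_ord])
    have h3 := key (fun _ => Ioi b) (hW' b)
    obtain ⟨x, hx, hx'⟩ := (hbad.and h3).exists
    exact ha (g x) hx (Filter.mem_of_superset hx' fun y hy => (hb _).trans hy)
  obtain ⟨x, hx, hx'⟩ := (hcomp.and huni).exists
  exact ⟨V (g x), hx, hx'⟩

end Pool.Agent.H85.ASC
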