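import Pool.Agent.H85.ASC.Measurable

open Cardinal Ordinal Filter Set Order

universe u

namespace Pool.Agent.H85.ASC

variable {I J : Type u} {W : Ultrafilter I} {δ ν κ β χ : Cardinal.{u}}

theorem Uni.mono {δ' : Cardinal.{u}} (h : Uni δ ν) (h' : δ' ≤ δ) : Uni δ' ν := by
  obtain ⟨U, hU, hU'⟩ := h
  exact ⟨U, hU.mono h', hU'⟩

theorem ord_lt_of_lt {ξ : Ordinal.{u}} (h : ξ < δ.ord) : ξ.card < δ := lt_ord.1 h

/-- no decomposability in `[χ, χ^{+δ})` -/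
theorem not_dec_aleph (hδ : ℵ₁ ≤ δ) (hW : Cp W δ) {o : Ordinal.{u}}
    (hχc : (ℵ_ o).ord.cof < δ ∨ ((ℵ_ o).IsRegular ∧ ¬ Uni ℵ₁ (ℵ_ o)))
    (hB : ∀ ρ < ℵ_ o, ∃ l, ρ < l ∧ l < ℵ_ o ∧ l.IsRegular ∧ ¬ Uni ℵ₁ l)
    (ξ : Ordinal.{u}) (hξ : ξ < δ.ord) : ¬ Dec W (ℵ_ (o + ξ)) := by
  induction ξ using WellFoundedLT.induction with
  | ind ξ ih =>
    rcases Ordinal.zero_or_succ_or_isSuccLimit ξ with rfl | ⟨ζ, rfl⟩ | hlim
    · rw [add_zero]
      rcases hχc with hc | ⟨hr, hu⟩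
      · exact not_dec_of_cof (aleph0_le_aleph o) hc hW
      · exact fun h => hu ((uni_of_dec h (aleph0_le_aleph o) hW).mono hδ)
    · intro hdec
      have hζ : ζ < succ ζ := lt_succ ζ
      have hζδ : ζ < δ.ord := hζ.trans hξ
      have hs : ℵ_ (o + succ ζ) = succ (ℵ_ (o + ζ)) := by
        rw [Order.succ_eq_add_one, ← add_assoc, succ_aleph]
      rw [hs] at hdec
      rcases isRegular_or_isSingular (aleph0_le_aleph (o + ζ)) with hr | hsing
      · exact ih ζ hζ hζδ (kunen_prikry_regular hr hdec)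
      · have hlimo := hsing.isSuccLimit_of_aleph
        rcases Ordinal.zero_or_succ_or_isSuccLimit ζ with rfl | ⟨ζ', rfl⟩ | hlim
        · -- `χ` itself is singular
          rw [add_zero] at hdec hsing
          have hc : (ℵ_ o).ord.cof < δ := by
            rcases hχc with hc | ⟨hr, _⟩
            · exact hc
            · exact absurd hr hsing.not_isRegular
          obtain ⟨b, hb⟩ := kunen_prikry (aleph0_le_aleph o) hdec (bdd_of_cof hc hW)
          obtain ⟨l, hl1, hl2, hl3, hl4⟩ := hB #(Iic b) (mk_Iic_lt (aleph0_le_aleph o) b)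
          exact hl4 ((uni_of_dec (hb l hl3 hl1 hl2.le) hl3.1 hW).mono hδ)
        · exact hsing.not_isRegular (by
            rw [Order.succ_eq_add_one, ← add_assoc]; exact isRegular_aleph_add_one _)
        · have hζ0 : ζ ≠ 0 := hlim.ne_bot
          have hc : (ℵ_ (o + ζ)).ord.cof < δ := by
            rw [ord_aleph, cof_omega hlimo, cof_add o hζ0]
            exact (cof_le_card ζ).trans_lt (lt_ord.1 hζδ)
          obtain ⟨b, hb⟩ := kunen_prikry (aleph0_le_aleph _) hdec (bdd_of_cof hc hW)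
          have hbc := mk_Iic_lt (aleph0_le_aleph (o + ζ)) b
          -- a smaller aleph
          have h1 : ∃ η < ζ, #(Iic b) < ℵ_ (o + η) := by
            by_contra hcon
            push Not at hcon
            have h2 : ℵ_ (o + ζ) ≤ #(Iic b) := by
              refine (aleph_limit hlimo).le.trans ?_
              refine ciSup_le' fun a => ?_
              have h3 : (a : Ordinal) ≤ o + (a.1 - o) := Ordinal.le_add_sub _ _
              have h4 : a.1 - o < ζ :=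
                Ordinal.sub_lt_of_lt_add a.2 (pos_iff_ne_zero.2 hζ0)
              exact (aleph_le_aleph.2 h3).trans (hcon _ h4)
            exact absurd hbc (not_lt.2 h2)
          obtain ⟨η, hη, hbη⟩ := h1
          have hη1 : η + 1 < ζ := hlim.succ_lt hη
          refine ih (η + 1) (hη1.trans hζ) (hη1.trans hζδ) (hb _ ?_ ?_ ?_)
          · rw [← add_assoc]
            exact isRegular_aleph_add_one _
          · exact hbη.trans (aleph_lt_aleph.2 (by gcongr; exact lt_add_one η))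
          · exact aleph_le_aleph.2 (by gcongr)
    · have hlimo : IsSuccLimit (o + ξ) := Ordinal.isSuccLimit_add o hlim
      refine not_dec_of_cof (aleph0_le_aleph _) ?_ hW
      rw [ord_aleph, cof_omega hlimo, cof_add o hlim.ne_bot]
      exact (cof_le_card ξ).trans_lt (lt_ord.1 hξ)

/-- the lower bound for `2 ^ χ` -/
theorem power_ge (hδ : ℵ₁ ≤ δ) (hW : Cp W δ) {o : Ordinal.{u}}
    (hχc : (ℵ_ o).ord.cof < δ ∨ ((ℵ_ o).IsRegular ∧ ¬ Uni ℵ₁ (ℵ_ o)))
    (hB : ∀ ρ < ℵ_ o, ∃ l, ρ < l ∧ l < ℵ_ o ∧ l.IsRegular ∧ ¬ Uni ℵ₁ l)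
    (hD : ∀ ρ < ℵ_ o, ∃ ν, ρ < ν ∧ ν < ℵ_ o ∧ Dec W ν) :
    ℵ_ (o + δ.ord) ≤ 2 ^ (ℵ_ o) := by
  by_contra hlt
  rw [not_le] at hlt
  have hno : ∀ ν, ℵ_ o ≤ ν → ν ≤ 2 ^ (ℵ_ o) → ¬ Dec W ν := by
    intro ν h1 h2
    obtain ⟨o', rfl⟩ := mem_range_aleph_iff.2 ((aleph0_le_aleph o).trans h1)
    have h3 : o ≤ o' := aleph_le_aleph.1 h1
    have h4 : o' < o + δ.ord := aleph_lt_aleph.1 (h2.trans_lt hlt)
    have h5 : o + (o' - o) = o' := Ordinal.add_sub_cancel_of_le h3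
    have h6 : o' - o < δ.ord := (Ordinal.sub_lt_of_le h3).2 h4
    rw [← h5]
    exact not_dec_aleph hδ hW hχc hB _ h6
  obtain ⟨J, g, hJ, hg⟩ := silver (aleph0_le_aleph o) hno
  obtain ⟨ν, h1, h2, K, f, hK, hf⟩ := hD _ hJ
  obtain ⟨q, hq⟩ := hg K f (hK.trans_le h2.le)
  apply hf (range q) (mk_range_le.trans_lt h1)
  filter_upwards [hq] with x hx
  exact ⟨g x, hx.symm⟩

/-- `2 ^ χ > χ^{+χ}` -/
theorem power_gt {o : Ordinal.{u}} (hlim : ∀ μ < ℵ_ o, succ μ < ℵ_ o)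
    (h : ∀ δ : Cardinal.{u}, δ < ℵ_ o → ∃ δ', δ ≤ δ' ∧ δ' < ℵ_ o ∧
      ℵ_ (o + δ'.ord) ≤ 2 ^ (ℵ_ o)) :
    ℵ_ (o + (ℵ_ o).ord) < 2 ^ (ℵ_ o) := by
  have hlimo : IsSuccLimit (ℵ_ o).ord := isSuccLimit_ord (aleph0_le_aleph o)
  have hlimo' : IsSuccLimit (o + (ℵ_ o).ord) := Ordinal.isSuccLimit_add o hlimo
  have hle : ℵ_ (o + (ℵ_ o).ord) ≤ 2 ^ (ℵ_ o) := by
    rw [aleph_limit hlimo']
    refine ciSup_le' fun a => ?_
    have h1 : a.1 - o < (ℵ_ o).ord := Ordinal.sub_lt_of_lt_add a.2 (by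
      rw [ord_aleph]; exact omega_pos _)
    obtain ⟨δ', h2, h3, h4⟩ := h (succ (a.1 - o).card) (hlim _ (lt_ord.1 h1))
    refine le_trans (aleph_le_aleph.2 ?_) h4
    refine (Ordinal.le_add_sub a.1 o).trans ?_
    gcongr
    have h5 : (a.1 - o).card < δ' := (lt_succ _).trans_le h2
    exact (lt_ord.2 h5).le
  refine lt_of_le_of_ne hle fun he => ?_
  have h1 := lt_cof_ord_power (a := ℵ_ o) (b := 2) (aleph0_le_aleph o) one_lt_two
  rw [← he, ord_aleph, cof_omega hlimo', cof_add o hlimo.ne_bot] at h1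
  exact absurd h1 (not_lt.2 (cof_ord_le _))

end Pool.Agent.H85.ASC
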