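import Pool.Agent.H85.ASC.Power

open Cardinal Ordinal Filter Set Order

universe u

namespace Pool.Agent.H85.ASC

variable {κ : Cardinal.{u}}

/-- regular cardinals without countably complete uniform ultrafilter are unbounded (weak form) -/
theorem exists_hole_le (h₁ : AlmostSC κ) (h₂ : IsLeast {μ : Cardinal.{u} | ℵ₁ ≤ μ ∧ SC ℵ₁ μ} κ)
    {μ : Cardinal.{u}} (hμ : μ < κ) : ∃ l, μ ≤ l ∧ l < κ ∧ l.IsRegular ∧ ¬ Uni ℵ₁ l := by
  by_contra hcon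
  push Not at hcon
  have h3 : max μ ℵ₁ < κ := max_lt hμ h₁.1
  have h4 : SC ℵ₁ (max μ ℵ₁) := by
    refine ketonen le_rfl (aleph0_lt_aleph_one.trans_le (le_max_right _ _)) fun l hl hle => ?_
    rcases lt_or_ge l κ with h | h
    · by_contra hu
      exact hu (hcon l ((le_max_left _ _).trans hle) h hl)
    · exact uni_of_sc h₂.1.2 hl h
  exact absurd (h₂.2 ⟨le_max_right _ _, h4⟩) (not_le.2 h3)

theorem dec_self {l : Cardinal.{u}} (hl : l.IsRegular) {W : Ultrafilter l.ord.ToType}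
    (hW : ∀ a, Ioi a ∈ W) : Dec W l :=
  dec_of_unbdd hl (f := fun x => x) hW

theorem succ_lt_of_hyp (h₁ : AlmostSC κ)
    (h₂ : IsLeast {μ : Cardinal.{u} | ℵ₁ ≤ μ ∧ SC ℵ₁ μ} κ) {μ : Cardinal.{u}} (hμ : μ < κ) :
    succ μ < κ := by
  by_contra hcon
  have he : κ = succ μ := le_antisymm (not_lt.1 hcon) (succ_le_of_lt hμ)
  obtain ⟨l, hl1, hl2, hl3, hl4⟩ := exists_hole_le h₁ h₂ hμ
  have hlμ : l = μ := le_antisymm (lt_succ_iff.1 (he ▸ hl2)) hl1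
  subst hlμ
  have hr : (succ l).IsRegular := isRegular_succ hl3.1
  have h5 := h₂.1.2
  rw [he] at h5
  obtain ⟨W, hW, hW'⟩ := uni_of_sc h5 hr le_rfl
  exact hl4 (uni_of_dec (kunen_prikry_regular hl3 (dec_self hr hW')) hl3.1 hW)

theorem exists_hole (h₁ : AlmostSC κ) (h₂ : IsLeast {μ : Cardinal.{u} | ℵ₁ ≤ μ ∧ SC ℵ₁ μ} κ)
    {μ : Cardinal.{u}} (hμ : μ < κ) : ∃ l, μ < l ∧ l < κ ∧ l.IsRegular ∧ ¬ Uni ℵ₁ l := by
  obtain ⟨l, h3, h4⟩ := exists_hole_le h₁ h₂ (succ_lt_of_hyp h₁ h₂ hμ)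
  exact ⟨l, (lt_succ μ).trans_le h3, h4⟩

theorem regular_of_hyp (h₁ : AlmostSC κ)
    (h₂ : IsLeast {μ : Cardinal.{u} | ℵ₁ ≤ μ ∧ SC ℵ₁ μ} κ) : κ.IsRegular := by
  have h0 : ℵ₀ ≤ κ := (aleph0_lt_aleph_one.trans h₁.1).le
  by_contra hcon
  have hsing : κ.IsSingular := IsSingular.of_not_isRegular h0 hcon
  set δ := succ (max κ.ord.cof ℵ₁) with hδ
  have hδκ : δ < κ := succ_lt_of_hyp h₁ h₂ (max_lt hsing.cof_ord_lt h₁.1)
  have h1δ : ℵ₁ ≤ δ := (le_max_right _ _).trans (le_succ _)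
  have hcδ : κ.ord.cof < δ := (le_max_left _ _).trans_lt (lt_succ _)
  have hr : (succ κ).IsRegular := isRegular_succ h0
  obtain ⟨W, hW, hW'⟩ := uni_of_sc (h₁.2 δ h1δ hδκ) hr (le_succ κ)
  obtain ⟨b, hb⟩ := kunen_prikry h0 (dec_self hr hW') (bdd_of_cof hcδ hW)
  obtain ⟨l, hl1, hl2, hl3, hl4⟩ := exists_hole h₁ h₂ (mk_Iic_lt h0 b)
  exact hl4 ((uni_of_dec (hb l hl3 hl1 hl2.le) hl3.1 hW).mono h1δ)

theorem two_power_lt_of_hyp (h₁ : AlmostSC κ)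
    (h₂ : IsLeast {μ : Cardinal.{u} | ℵ₁ ≤ μ ∧ SC ℵ₁ μ} κ) {μ : Cardinal.{u}} (hμ : μ < κ) :
    2 ^ μ < κ := by
  have hr := regular_of_hyp h₁ h₂
  set δ := succ (max μ ℵ₁) with hδ
  have hδκ : δ < κ := succ_lt_of_hyp h₁ h₂ (max_lt hμ h₁.1)
  have h1δ : ℵ₁ ≤ δ := (le_max_right _ _).trans (le_succ _)
  have hμδ : μ < δ := (le_max_left _ _).trans_lt (lt_succ _)
  obtain ⟨W, hW, hW'⟩ := uni_of_sc (h₁.2 δ h1δ hδκ) hr le_rfl
  by_contra hcon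
  rw [not_lt] at hcon
  have h3 : #(κ.ord.ToType) ≤ #(Set μ.out) := by
    simp only [mk_toType, card_ord, mk_set, mk_out]
    exact hcon
  obtain ⟨e⟩ := h3
  have h4 : ∀ᶠ x in (W : Filter κ.ord.ToType), ∀ m : μ.out,
      (m ∈ e x ↔ {y | m ∈ e y} ∈ W) := by
    refine hW.all (by rwa [mk_out]) fun m => ?_
    by_cases hm : {y | m ∈ e y} ∈ W
    · filter_upwards [hm] with x hx
      exact ⟨fun _ => hm, fun _ => hx⟩
    · filter_upwards [Ultrafilter.compl_mem_iff_notMem.2 hm] with x hx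
      exact ⟨fun h => absurd h hx, fun h => absurd h hm⟩
  obtain ⟨x, hx⟩ := h4.exists
  obtain ⟨y, hy, hxy⟩ := (h4.and (hW' x)).exists
  have h5 : e x = e y := by
    ext m
    rw [hx m, hy m]
  have h6 : x = y := e.injective h5
  rw [h6] at hxy
  exact lt_irrefl _ hxy

/-- `κ` is a measurable cardinal: it is uncountable and carries a `κ`-complete nonprincipal
ultrafilter. -/
def IsMeasurable (κ : Cardinal.{u}) : Prop :=
  ℵ₀ < κ ∧ ∃ V : Ultrafilter κ.ord.ToType, CardinalInterFilter (V : Filter κ.ord.ToType) κ ∧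
    ∀ a, {a} ∉ V

theorem uniform_of_nonprincipal (h0 : ℵ₀ ≤ κ) {V : Ultrafilter κ.ord.ToType} (hV : Cp V κ)
    (hn : ∀ a, {a} ∉ V) (a : κ.ord.ToType) : Ioi a ∈ V := by
  have h1 : ∀ᶠ x in (V : Filter κ.ord.ToType), ∀ b : Iic a, x ≠ b.1 :=
    hV.all (mk_Iic_lt h0 a) fun b => Ultrafilter.compl_mem_iff_notMem.2 (hn b.1)
  filter_upwards [h1] with x hx
  by_contra hxa
  have h2 : x ≤ a := not_lt.1 fun h => hxa (mem_Ioi.2 h)
  exact hx ⟨x, mem_Iic.2 h2⟩ rfl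

theorem not_measurable_of_hyp (h₁ : AlmostSC κ)
    (h₂ : IsLeast {μ : Cardinal.{u} | ℵ₁ ≤ μ ∧ SC ℵ₁ μ} κ) (h₃ : ¬ SC κ κ)
    (V : Ultrafilter κ.ord.ToType) (hV : Cp V κ) (hV' : ∀ a, Ioi a ∈ V) : False :=
  h₃ (sc_of_measurable (regular_of_hyp h₁ h₂) h₁.1 (fun _ h => succ_lt_of_hyp h₁ h₂ h) h₁.2 V hV hV')

/-- the ultrafilters `W δ` and their unbounded decomposability -/
theorem exists_W (h₁ : AlmostSC κ)
    (h₂ : IsLeast {μ : Cardinal.{u} | ℵ₁ ≤ μ ∧ SC ℵ₁ μ} κ) (h₃ : ¬ SC κ κ)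
    {δ : Cardinal.{u}} (hδ : ℵ₁ ≤ δ) (hδκ : δ < κ) :
    ∃ W : Ultrafilter κ.ord.ToType, Cp W δ ∧ ∀ ρ < κ, ∃ ν, ρ < ν ∧ ν < κ ∧ Dec W ν := by
  have hr := regular_of_hyp h₁ h₂
  obtain ⟨W, hW, hW'⟩ := uni_of_sc (h₁.2 δ hδ hδκ) hr le_rfl
  refine ⟨W, hW, fun ρ hρ => ?_⟩
  by_contra hcon
  push Not at hcon
  have hτ : succ (max ρ ℵ₀) < κ :=
    succ_lt_of_hyp h₁ h₂ (max_lt hρ (aleph0_lt_aleph_one.trans h₁.1))
  obtain ⟨V, hV, hV'⟩ := measurable_of_indec hr (fun _ h => two_power_lt_of_hyp h₁ h₂ h) h₁.1 h₁.2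
    W hW' ((le_max_right _ _).trans (le_succ _)) hτ fun ν h3 h4 =>
      hcon ν (((le_max_left _ _).trans_lt (lt_succ _)).trans_le h3) h4
  exact not_measurable_of_hyp h₁ h₂ h₃ V hV hV'

end Pool.Agent.H85.ASC
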