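import Pool.Agent.H85.ASC.KP

open Cardinal Ordinal Filter Set Order

universe u

namespace Pool.Agent.H85.ASC

variable {I J : Type u} {W : Ultrafilter I} {δ ν κ β χ : Cardinal.{u}}

/-- Silver: if `W` is not decomposable at any cardinal in `[χ, 2^χ]` then all functions into sets of
size at most `χ` factor through one function into a set of size less than `χ`. -/
theorem silver (hχ : ℵ₀ ≤ χ) (hW : ∀ ν, χ ≤ ν → ν ≤ 2 ^ χ → ¬ Dec W ν) :
    ∃ (J : Type u) (g : I → J), #J < χ ∧ ∀ (K : Type u) (h : I → K), #K ≤ χ →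
      ∃ q : J → K, ∀ᶠ x in (W : Filter I), h x = q (g x) := by
  classical
  by_contra hcon
  push Not at hcon
  have hI : Nonempty I := W.nonempty_of_mem Filter.univ_mem |>.to_type
  set X := χ.ord.ToType with hX
  have hXc : #X = χ := by simp [hX]
  have hXne : Nonempty X := by
    rw [← mk_ne_zero_iff, hXc]
    exact (aleph0_pos.trans_le hχ).ne'
  -- a bad function into `X` for each small function
  have hbad : ∀ (J : Type u) (g : I → J), #J < χ → ∃ h : I → X, ∀ q : J → X,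
      ¬ ∀ᶠ x in (W : Filter I), h x = q (g x) := by
    intro J g hJ
    obtain ⟨K, h, hK, hq⟩ := hcon J g hJ
    rw [← hXc] at hK
    obtain ⟨e⟩ := hK
    have hKne : Nonempty K := hI.map h
    refine ⟨fun x => e (h x), fun q hqq => ?_⟩
    obtain ⟨x, hx, hx'⟩ := (hqq.and (hq (fun j => Function.invFun e (q j)))).exists
    apply hx'
    rw [← hx, Function.leftInverse_invFun e.injective]
  -- the step of the recursion
  have hstep : ∀ (ξ : X) (f : ∀ η, η < ξ → I → X), ∃ h : I → X, ∀ q : (Iio ξ → X) → X,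
      ¬ ∀ᶠ x in (W : Filter I), h x = q (fun η => f η.1 η.2 x) := by
    intro ξ f
    have hcard : #(Iio ξ → X) ≤ 2 ^ χ := by
      rw [← power_def, hXc]
      have h1 : #(Iio ξ) ≤ χ := (mk_set_le _).trans hXc.le
      calc χ ^ #(Iio ξ) ≤ χ ^ χ := power_le_power_left (aleph0_pos.trans_le hχ).ne' h1
        _ = 2 ^ χ := power_self_eq hχ
    obtain ⟨A, hA, hAc⟩ := exists_small hW (fun x => fun η : Iio ξ => f η.1 η.2 x) hcard
    obtain ⟨x0, hx0⟩ := W.nonempty_of_mem hA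
    obtain ⟨h, hh⟩ := hbad A (fun x => if hx : (fun η : Iio ξ => f η.1 η.2 x) ∈ A then
      ⟨_, hx⟩ else ⟨_, hx0⟩) hAc
    refine ⟨h, fun q hq => hh (fun a => q a.1) ?_⟩
    filter_upwards [hA, hq] with x hx hx'
    have hx2 : (fun η : Iio ξ => f η.1 η.2 x) ∈ A := hx
    simp only [hx2, dite_true]
    exact hx'
  choose step hstep using hstep
  let f : X → I → X := WellFounded.fix (wellFounded_lt (α := X)) step
  have hf : ∀ ξ, f ξ = step ξ (fun η _ => f η) := fun ξ =>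
    WellFounded.fix_eq (wellFounded_lt (α := X)) step ξ
  have hfs : ∀ ξ, ∀ q : (Iio ξ → X) → X,
      ¬ ∀ᶠ x in (W : Filter I), f ξ x = q (fun η => f η.1 x) := by
    intro ξ q
    rw [hf ξ]
    exact hstep ξ (fun η _ => f η) q
  -- the total function
  have hcard : #(X → X) ≤ 2 ^ χ := by
    rw [← power_def, hXc]
    exact (power_self_eq hχ).le
  obtain ⟨A, hA, hAc⟩ := exists_small hW (fun x => fun ξ : X => f ξ x) hcard
  have hpair : ∀ ξ : X, ∃ p : A × A, (∀ η < ξ, p.1.1 η = p.2.1 η) ∧ p.1.1 ξ ≠ p.2.1 ξ := by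
    intro ξ
    by_contra hno
    push Not at hno
    apply hfs ξ (fun r => if h : ∃ u : A, (fun η : Iio ξ => u.1 η.1) = r then h.choose.1 ξ
      else hXne.some)
    filter_upwards [hA] with x hx
    have hx2 : (fun ξ : X => f ξ x) ∈ A := hx
    have hex : ∃ u : A, (fun η : Iio ξ => u.1 η.1) = (fun η : Iio ξ => f η.1 x) :=
      ⟨⟨_, hx2⟩, rfl⟩
    rw [dif_pos hex]
    have h1 := hex.choose_spec
    exact hno ⟨⟨_, hx2⟩, hex.choose⟩ (fun η hη => (congrFun h1 ⟨η, hη⟩).symm)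
  choose p hp1 hp2 using hpair
  have hinj : Function.Injective p := by
    intro ξ ξ' he
    rcases lt_trichotomy ξ ξ' with h | h | h
    · exact absurd (by rw [he]; exact hp1 ξ' ξ h) (hp2 ξ)
    · exact h
    · exact absurd (by rw [← he]; exact hp1 ξ ξ' h) (hp2 ξ')
  have h1 : #X ≤ #(A × A) := mk_le_of_injective hinj
  rw [hXc, mk_prod, Cardinal.lift_id] at h1
  exact absurd h1 (not_le.2 (mul_lt_of_lt hχ hAc hAc))

/-- global version: no decomposability in `[τ, κ)`, `2^τ < κ` -/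
theorem silver_global {τ : Cardinal.{u}} (hτ : ℵ₀ ≤ τ) (hκ : 2 ^ τ < κ)
    (hW : ∀ ν, τ ≤ ν → ν < κ → ¬ Dec W ν) :
    ∃ (J : Type u) (g : I → J), #J < τ ∧ ∀ (K : Type u) (h : I → K), #K < κ →
      ∃ q : J → K, ∀ᶠ x in (W : Filter I), h x = q (g x) := by
  classical
  obtain ⟨J, g, hJ, hg⟩ := silver hτ fun ν h1 h2 => hW ν h1 (h2.trans_lt hκ)
  refine ⟨J, g, hJ, fun K h hK => ?_⟩
  obtain ⟨A, hA, hAc⟩ := exists_small (a := τ) (b := #K)
    (fun ν h1 h2 => hW ν h1 (h2.trans_lt hK)) h le_rfl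
  obtain ⟨x0, hx0⟩ := W.nonempty_of_mem hA
  obtain ⟨q, hq⟩ := hg A (fun x => if hx : h x ∈ A then ⟨_, hx⟩ else ⟨_, hx0⟩) hAc.le
  refine ⟨fun j => (q j).1, ?_⟩
  filter_upwards [hA, hq] with x hx hx'
  have hx2 : h x ∈ A := hx
  simp only [hx2, dite_true] at hx'
  rw [← hx']

end Pool.Agent.H85.ASC
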